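import Pool.Agent.Helper62.DSH.StB
import Pool.Agent.Helper62.LH.Fin

/-!
# Project DSH: assembly
-/

set_option autoImplicit false
set_option maxSynthPendingDepth 3

open Set Filter Topology MeasureTheory
open scoped ContDiff ENNReal

noncomputable section

namespace Helper62.DSH

open Helper62.LH

variable {n k l m : ℕ}

/-- a form all of whose frame components vanish is zero -/
theorem eq_zero_of_cp {g : E n → Bl n} {x : E n} {f : Fin n → E n} (hf : Onb g x f)
    (α : E n [⋀^Fin k]→L[ℝ] ℝ) (h : ∀ I : Fin k → Fin n, α (fun i => f (I i)) = 0) : α = 0 := by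
  ext v
  have h1 : v = fun i => ∑ a, g x (v i) (f a) • f a := by
    funext i
    exact (hf.expd (v i)).symm
  rw [h1]
  have h2 := α.toMultilinearMap.map_sum (fun (i : Fin k) (a : Fin n) => g x (v i) (f a) • f a)
  have h3 : α (fun i => ∑ a, g x (v i) (f a) • f a) =
      α.toMultilinearMap (fun i => ∑ a, g x (v i) (f a) • f a) := rfl
  rw [h3, h2]
  refine Finset.sum_eq_zero fun I _ => ?_
  rw [α.toMultilinearMap.map_smul_univ]
  have h4 : α.toMultilinearMap (fun i => f (I i)) = 0 := h I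
  rw [h4, smul_zero]

theorem nsq_cp (hCfr : StCfr) {g : E n → Bl n} {Γ : E n → Bm n} {F : Fin n → E n → E n}
    {G : E n → Fin n → Fin n → Fin n → ℝ} (hF : Frm g Γ F G) (φ : Fm n k) (x : E n) :
    nsq g k x (φ x) = q2 (cp F φ x) := by
  rw [nsq_frame hCfr (hF.onb x)]
  unfold q2 ipt cp
  congr 1
  exact Finset.sum_congr rfl fun I _ => by ring

/-- the frame components of a harmonic form -/
theorem hf_of_harm (hCfr : StCfr) (hBrc : TBrc) (hPlj : TPlj) (hBrs : TBrs)
    (h : (m + 2) + l = n) {g : E n → Bl n} {Γ : E n → Bm n} {F : Fin n → E n → E n}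
    {G : E n → Fin n → Fin n → Fin n → ℝ} (hg : IsMet g) (hΓ : IsChr g Γ) (hF : Frm g Γ F G)
    {φ : Fm n (m + 2)} (hφ : Harm h g φ) : Hf (j := m + 1) g F G (cp F φ) := by
  obtain ⟨h1, h2, -, -⟩ := hBrc n (m + 2) g Γ F G hg hΓ hF φ hφ.smooth
  refine ⟨h1, h2, ?_, ?_, ?_⟩
  · obtain ⟨η, hη, hdη⟩ := hPlj n (m + 1) φ hφ.smooth hφ.closed
    obtain ⟨h3, h4, -, h5⟩ := hBrc n (m + 1) g Γ F G hg hΓ hF η hη
    refine ⟨cp F η, h3, h4, fun x => ?_⟩
    rw [h5 x]
    have : (fun y => extDeriv η y) = φ := funext hdη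
    rw [this]
  · obtain ⟨τ, hτ, sτ, cτ⟩ := hφ.coclosed
    exact hBrs n (m + 1) l h g Γ F G hg hΓ hF φ τ hφ.smooth hτ sτ cτ
  · have := hφ.int
    simpa only [nsq_cp hCfr hF] using this

/-- linear dependence of harmonic forms of degree `m + 2` -/
theorem dep_j (hCfr : StCfr) (hBrc : TBrc) (hPlj : TPlj) (hBrs : TBrs) (hMtj : TMtj)
    (h : (m + 2) + l = n) {g : E n → Bl n} {Γ : E n → Bm n} {F : Fin n → E n → E n}
    {G : E n → Fin n → Fin n → Fin n → ℝ} (hg : IsMet g) (hΓ : IsChr g Γ) (hF : Frm g Γ F G)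
    (hc : Cpl g) (hs : Sec g Γ) (K0 : Set (E n)) (hK0 : IsCompact K0) (hW : WPos g Γ F m K0) :
    ∃ N : ℕ, (K0 = ∅ → N = n.choose (m + 1)) ∧ Dep N {φ : Fm n (m + 2) | Harm h g φ} := by
  obtain ⟨Nc, hNc, hM⟩ := hMtj n m g Γ F G (by omega) hg hΓ hF hc hs K0 hK0 hW
  refine ⟨n.choose (m + 1) + Nc, fun h0 => by rw [hNc h0, add_zero], ?_⟩
  intro φ hφ
  have e : n.choose (m + 1) + 1 + Nc = n.choose (m + 1) + Nc + 1 := by omega
  obtain ⟨c, hc1, hc0⟩ := hM (fun i => cp F (φ (Fin.cast e i)))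
    (fun i => hf_of_harm hCfr hBrc hPlj hBrs h hg hΓ hF (hφ _))
  refine ⟨fun i => c (Fin.cast e.symm i), fun h0 => ?_, ?_⟩
  · have h1 : c = 0 := by
      funext i
      have := congrFun h0 (Fin.cast e i)
      simpa using this
    rw [h1] at hc1
    simp at hc1
  · funext x
    apply eq_zero_of_cp (hF.onb x)
    intro I
    have h2 := congrFun (hc0 x) I
    rw [Finset.sum_apply] at h2
    have h3 : ∑ i, c (Fin.cast e.symm i) * φ i x (fun k => F (I k) x) = 0 := by
      refine Eq.trans ?_ h2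
      rw [← (finCongr e).sum_comp]
      refine Finset.sum_congr rfl fun i _ => ?_
      simp only [Pi.smul_apply, smul_eq_mul]
      rfl
    simpa [Finset.sum_apply] using h3

end Helper62.DSH
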