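import Pool.Agent.Helper62.DSH.StC

/-!
# Project DSH, part B: analysis

Statements with complete proofs in the docstrings. Most modules of this part are the generalisation of a module of
project LH (named in the docstring) whose Lean proof can be copied and adapted: `Pool/Agent/Helper*/LH/M_*.lean`.
`W = wt g f = e^{-f} vol`, `d = dF F G`, `δ = dlF F G f`, `∇_a u = cv F G u x a`.
-/

set_option autoImplicit false

open Set Filter Topology MeasureTheory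
open Helper62.LH
open scoped ContDiff ENNReal

noncomputable section

namespace Helper62.DSH

/-! ## Hilbert space projection -/

/-- HPJ (220 lines). Projection in a weighted `L²` space of tensor valued functions. Hypotheses: TNrm.
PROOF. Either with Mathlib: `μ = volume.withDensity w`, the Hilbert space `Lp (EuclideanSpace ℝ (Fin j → Fin n)) 2 μ`
(the norm squared of a class is `j!` times `∫ q2 w`), `V` = closure of the classes of elements of `S`, `η = u0 - proj_V u0`. Or by hand as in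
modules HP and CPT of LH: `m = inf ∫ q2 (u0 + β) w` over `β ∈ S`, `β_k` with `∫ q2 (u0 + β_k) w ≤ m + 1/(k+1)`, by the parallelogram identity
`u0 + β_k` is a Cauchy sequence in `L²(w)`, its limit `η` is a limit almost everywhere of a subsequence; `∫ q2 η w = m ≤ ∫ q2 u0 w`
(take `β = 0`); `m ≤ ∫ q2 (u0 + β_k + s β) w → m + 2 s ∫ ⟨η,β⟩ w + s² ∫ q2 β w` for all real `s`, so `∫ ⟨η,β⟩ w = 0`. `η x ∈ A` almost everywhere
(`A` is closed, finite dimension); change `η` to `0` on a null set. Elements of `S` are square integrable with the weight `w` (continuous,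
compact support). -/
def THpj : Prop := ∀ (n j : ℕ) (w : E n → ℝ), Continuous w → (∀ x, 0 < w x) →
  ∀ (A : Submodule ℝ (Tn n j)) (S : Submodule ℝ (E n → Tn n j)),
  (∀ β ∈ S, Continuous β ∧ HasCompactSupport β ∧ ∀ x, β x ∈ A) →
  ∀ u0 : E n → Tn n j, Continuous u0 → (∀ x, u0 x ∈ A) → Integrable (fun x => q2 (u0 x) * w x) →
  ∃ η : E n → Tn n j, (∀ x, η x ∈ A) ∧ AEStronglyMeasurable η volume ∧
    Integrable (fun x => q2 (η x) * w x) ∧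
    ∫ x, q2 (η x) * w x ≤ ∫ x, q2 (u0 x) * w x ∧
    (∀ β ∈ S, ∫ x, ipt (η x) (β x) * w x = 0) ∧
    ∀ κ > 0, ∃ β ∈ S, Integrable (fun x => q2 (u0 x + β x - η x) * w x) ∧
      ∫ x, q2 (u0 x + β x - η x) * w x ≤ κ

/-! ## Friedrichs mollification -/

/-- FRG (180 lines). Friedrichs' lemma for a first order operator with smooth coefficients. Hypotheses: StMos StSch StDen
StMoc StFrc.
PROOF. Fix `x`, `ε > 0` and apply the weak equation to `ψ z = ε^{-n} ρ((x - z)/ε)` (`Cc ψ`, `∂_k ψ z = - ε^{-n-1} Dρ((x-z)/ε)(ee k)`); substitute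
`z = x - ε y`: `- ∑ i k, ∫ Dρ(y)(ee k) (a_ik u_i)(x - εy)/ε dy + ∑ i, mo ρ ε (b_i u_i) x = mo ρ ε h x`. So the function under the square is
`∑ i, (b_i mo(u_i) - mo(b_i u_i)) - ∑ i k, r_ik + (mo h - h)` with `r_ik x = fderiv (a_ik mo u_i) x (ee k) - ∫ Dρ(y)(ee k) (a_ik u_i)(x - εy)/ε dy`,
`∫_K r_ik² → 0` by FRC; `b_i mo(u_i) - mo(b_i u_i) = ∫ ρ(y)(b_i(x) - b_i(x-εy)) u_i(x-εy) dy` is estimated by SCH with a kernel bounded by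
`C ε` on `K`; `mo h → h` uniformly on `K` (or MOC). Everything is square integrable on `K` (the functions `mo ρ ε u` are smooth, MOS). -/
def TFrg : Prop := ∀ (n : ℕ) (ι : Type) [Fintype ι] (ρ : E n → ℝ), Mol ρ →
  ∀ (a : ι → Fin n → E n → ℝ) (b : ι → E n → ℝ), (∀ i k, ContDiff ℝ ∞ (a i k)) →
  (∀ i, ContDiff ℝ ∞ (b i)) → ∀ (u : ι → E n → ℝ) (h : E n → ℝ), (∀ i, L2l (u i)) →
  Continuous h →
  (∀ ψ, Cc ψ → ∫ x, (∑ i, u i x * ((∑ k, a i k x * fderiv ℝ ψ x (ee k)) + b i x * ψ x)) =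
    ∫ x, h x * ψ x) →
  ∀ K, IsCompact K → Tendsto (fun ε : ℝ => ∫ x in K,
    ((∑ i, (b i x * mo ρ ε (u i) x -
      ∑ k, fderiv ℝ (fun z => a i k z * mo ρ ε (u i) z) x (ee k))) - h x) ^ 2)
    (𝓝[>] 0) (𝓝 0)

/-- FRD (180 lines). The exterior derivative of the mollification. Hypotheses: StMos TNrm TFrg.
PROOF. Fix `J`. For smooth `u`: `(dF u x)(J) = ∑ c, (-1)^c (∑ k, (F (J c) x)_k ∂_k u_{J without c} - ρ(G_{J c})u (J without c)) =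
∑ I, (b_I u_I - ∑ k, ∂_k(a_Ik u_I))` with `a_Ik x = - ∑ c, (-1)^c [J without c = I] (F (J c) x)_k` and `b_I = z_I + ∑ k, ∂_k a_Ik`, where
`∑ I, z_I x t_I = - ∑ c, (-1)^c (rho (G x (J c)) t)(J without c)` (`z_I` smooth). For `ψ` with `Cc ψ` integrate by parts:
`∫ ∑ I, u_I (∑ k, a_Ik ∂_k ψ + b_I ψ) = ∫ (dF u x)(J) ψ`. Apply this to the approximations `u` of `η` on `K' = tsupport ψ` with
`dF u = P`: as `∫_{K'} q2 (u - η) → 0` (so all components converge in `L²(K')`), `∫ ∑ I, η_I (∑ k, a_Ik ∂_k ψ + b_I ψ) = ∫ P_J ψ`. FRG with index set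
`Fin j → Fin n` gives `∫_K ((dF (mt ρ ε η) x)(J) - P_J)² → 0`. Sum over `J`. -/
def TFrd : Prop := ∀ (n j : ℕ) (g : E n → Bl n) (Γ : E n → Bm n) (F : Fin n → E n → E n)
  (G : E n → Fin n → Fin n → Fin n → ℝ), Frm g Γ F G → ∀ ρ : E n → ℝ, Mol ρ →
  ∀ (η : E n → Tn n j) (P : E n → Tn n (j + 1)), Continuous P → L2t η →
  (∀ K, IsCompact K → ∀ κ > 0, ∃ u : E n → Tn n j, ContDiff ℝ ∞ u ∧
    (∀ x, dF F G u x = P x) ∧ ∫ x in K, q2 (u x - η x) ≤ κ) →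
  ∀ K, IsCompact K → Tendsto (fun ε : ℝ => ∫ x in K, q2 (dF F G (mt ρ ε η) x - P x))
    (𝓝[>] 0) (𝓝 0)

/-- FRE (200 lines). The weighted divergence of the mollification. Hypotheses: StMos StDlv TNrm TDer TLbz TAdj TFrg.
PROOF. Fix `K₁ : Fin j → Fin n` and let `e K' = ∑ σ, sign σ [K' = K₁ ∘ σ]` (sum over permutations), an alternating tensor with `⟨s,e⟩ = s K₁` for
alternating `s`. For `ψ` with `Cc ψ` the form `β = ψ • e` is smooth, alternating, with compact support, and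
`⟨t, dF β x⟩ W = ∑ J, t J (∑ k, a_Jk x ∂_k ψ + b_J x ψ)` with the smooth functions `a_Jk = ∑ c, (-1)^c (F (J c) x)_k e(J without c) W/(j+1)!`,
`b_J = - ∑ c, (-1)^c (rho (G x (J c)) e)(J without c) W/(j+1)!`. The hypothesis is the weak equation of FRG with `h = 0` for the components of
`η`; so `∫_K (P(mt ρ ε η))² → 0`, where `P(u) = ∑ J, (b_J u_J - ∑ k, ∂_k(a_Jk u_J))`. For smooth alternating `u`: `P(u) = - (dlF u)(K₁) W`, since for all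
`ψ` integration by parts and ADJ give `∫ P(u) ψ = ∫ ⟨u, dF β⟩ W = - ∫ ⟨dlF u, ψ e⟩ W = - ∫ ψ (dlF u)(K₁) W` (DER: `dlF u` is alternating) and both sides are
continuous (`ae_eq_zero_of_integral_contDiff_smul_eq_zero`). `mt ρ ε η` is smooth (MOS) and alternating. `W` is bounded below on `K`.
Sum over `K₁`. -/
def TFre : Prop := ∀ (n j : ℕ) (g : E n → Bl n) (Γ : E n → Bm n) (F : Fin n → E n → E n)
  (G : E n → Fin n → Fin n → Fin n → ℝ), IsMet g → IsChr g Γ → Frm g Γ F G →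
  ∀ ρ : E n → ℝ, Mol ρ → ∀ f : E n → ℝ, ContDiff ℝ ∞ f → ∀ η : E n → Tn n (j + 1), Al η →
  L2t η →
  (∀ β : E n → Tn n j, ContDiff ℝ ∞ β → Al β → HasCompactSupport β →
    ∫ x, ipt (η x) (dF F G β x) * wt g f x = 0) →
  ∀ K, IsCompact K → Tendsto (fun ε : ℝ => ∫ x in K, q2 (dlF F G f (mt ρ ε η) x))
    (𝓝[>] 0) (𝓝 0)

/-- FRJ (100 lines). Smooth approximation. Hypotheses: StSma StMos StMoc StDlv TNrm TFrd TFre.
PROOF. Take a mollifier (SMA) and `u = mt ρ ε η` with `ε` small: smooth (MOS), alternating; `q2 t ≤ ∑ I, t I²`, so MOC for the components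
gives the first estimate; FRD and FRE the others. `vol` is bounded on `K` above and below (DLV: continuous, positive), so hypothesis and
conclusion can be changed between `q2` and `q2 * vol`. -/
def TFrj : Prop := ∀ (n m : ℕ) (g : E n → Bl n) (Γ : E n → Bm n) (F : Fin n → E n → E n)
  (G : E n → Fin n → Fin n → Fin n → ℝ), IsMet g → IsChr g Γ → Frm g Γ F G →
  ∀ f : E n → ℝ, ContDiff ℝ ∞ f → ∀ (P : E n → Tn n (m + 2)) (η : E n → Tn n (m + 1)),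
  Continuous P → Al η → L2t η →
  (∀ K, IsCompact K → ∀ κ > 0, ∃ u : E n → Tn n (m + 1), ContDiff ℝ ∞ u ∧
    (∀ x, dF F G u x = P x) ∧ ∫ x in K, q2 (u x - η x) * vol g x ≤ κ) →
  (∀ β : E n → Tn n m, ContDiff ℝ ∞ β → Al β → HasCompactSupport β →
    ∫ x, ipt (η x) (dF F G β x) * wt g f x = 0) →
  ApJ g F G f P η

/-- LMJ (220 lines). The limit of the Bochner inequality (LH: module LIM). Hypotheses: StDlv TNrm TDer TLbz.
PROOF. `W ≤ vol` as `f ≥ 0`. Let `s ∈ (0,1)`, `κ₁ > 0`, `χ` the cut-off for `K ∪ K0`, `κ₁` (from `Cut g`), `L = K ∪ K0 ∪ tsupport χ`, `κ₂ > 0`, `u` from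
`ApJ` for `L`, `κ₂`, `v = χ u` (smooth, alternating, compact support); `Boc` for `v`. On `K ∪ K0`: `χ = 1` is maximal, so `Dχ = 0`, `v = u` and
`∇_a v = ∇_a u` (LBZ (2)). `∑ a, (Dχ(F_a))² ≤ κ₁²`: with `w = ∑ a, Dχ(F_a) F_a`, `g(w,w) = Dχ(w) ≤ κ₁ √g(w,w)`. LBZ (2), NRM:
`q2 (dv) ≤ (1+s) q2 (du) + (1+1/s)(m+2) κ₁² q2 u`, `q2 (du) ≤ (1+s) q2 P + (1+1/s) q2 (du - P)`, LBZ (3): `q2 (δv) ≤ 2 q2 (δu) + 2(m+1) κ₁² q2 u`; all of these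
vanish outside `L`, and there `0 ≤ χ ≤ 1`. `∫_L q2 u W ≤ (1+s) ∫ q2 η W + (1+1/s) κ₂`, and the same for `∫_{K0}`. So `∫_K NF u W ≤ ∫ NF v W` is at most
`(1+s)² ∫ q2 P W + (m+1) ε ((1+s) ∫ q2 η W + (1+1/s)κ₂) + Λ ((1+s) ∫_{K0} q2 η W + (1+1/s)κ₂) + (errors that tend to zero when first κ₁ → 0, then κ₂ → 0)`.
Choose `s`, then `κ₁` (then `χ, L`), then `κ₂` small. Integrability: continuous functions on compact sets; of `q2 η` by `L2t`. -/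
def TLmj : Prop := ∀ (n m : ℕ) (g : E n → Bl n) (Γ : E n → Bm n) (F : Fin n → E n → E n)
  (G : E n → Fin n → Fin n → Fin n → ℝ), IsMet g → IsChr g Γ → Frm g Γ F G → Cut g →
  ∀ (K0 : Set (E n)) (Λ : ℝ), IsCompact K0 → 0 ≤ Λ → Boc g Γ F G m K0 Λ →
  ∀ (f : E n → ℝ) (ε : ℝ), ContDiff ℝ ∞ f → (∀ x, 0 ≤ f x) → 0 ≤ ε →
  (∀ x v, -(ε * g x v v) ≤ Hs Γ f x v v) →
  ∀ (P : E n → Tn n (m + 2)) (η : E n → Tn n (m + 1)), Continuous P → L2t η →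
  ApJ g F G f P η → Integrable (fun x => q2 (P x) * wt g f x) →
  Integrable (fun x => q2 (η x) * wt g f x) → ∀ K, IsCompact K → ∀ κ > 0,
  ∃ u : E n → Tn n (m + 1), ContDiff ℝ ∞ u ∧ Al u ∧
    ∫ x in K, q2 (u x - η x) * vol g x ≤ κ ∧
    ∫ x in K, NF F G u x * wt g f x ≤ (∫ x, q2 (P x) * wt g f x) +
      (m + 1) * ε * (∫ x, q2 (η x) * wt g f x) + Λ * (∫ x in K0, q2 (η x) * wt g f x) + κ

/-! ## Cube means -/

/-- CUA (120 lines). Poincare inequality on a convex set.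
PROOF. `v x - v y = ∫_0^1 Dv(y + t(x-y))(x-y) dt`, so `(v x - v y)² ≤ d² ∫_0^1 h(y + t(x-y)) dt`, `h = ‖Dv‖²`. For `t ∈ [1/2,1]` and fixed `y ∈ D` the
substitution `z = y + t(x-y)` (homothety, `z ∈ D`) gives `∫_{x ∈ D} h(y + t(x-y)) ≤ t^{-n} ∫_D h ≤ 2^n ∫_D h`; for `t ∈ [0,1/2]` and fixed `x` the same with
`1 - t`. Tonelli (with `lintegral`, `h` is continuous and bounded on the bounded set `D`). -/
def TCua : Prop := ∀ (n : ℕ) (D : Set (E n)), MeasurableSet D → Convex ℝ D →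
  Bornology.IsBounded D → ∀ d : ℝ, (∀ x ∈ D, ∀ y ∈ D, ‖x - y‖ ≤ d) →
  ∀ v : E n → ℝ, ContDiff ℝ 1 v →
    ∫ x in D, (∫ y in D, (v x - v y) ^ 2) ≤
      2 ^ n * d ^ 2 * volume.real D * ∫ x in D, ‖fderiv ℝ v x‖ ^ 2

/-- CUB (150 lines). Poincare inequality modulo finitely many means; `Q` does not depend on `θ`. Hypotheses: TCua.
PROOF. If `K0 = ∅` take `Q = ∅`, `N = 0`. Otherwise let `K0 ⊆ Q = {x | ∀ i, -r ≤ x i < r}`, divided into `M^n` half open cubes `S` (indexed by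
`Fin n → Fin M`) of side `s = 2r/M`, volume `s^n > 0`, diameter `≤ √n s` (convex, measurable, disjoint). For such `S`, with CUA:
`∫_S v² = (1/(2|S|)) ∫_S ∫_S (v x - v y)² + (1/|S|) (∫_S v)² ≤ 2^n n s² ∫_S ‖Dv‖² + (1/|S|) (∫_S v)²`. Sum over the cubes; `M` with
`2^n n s² ≤ θ`, `C = s^{-n}`. -/
def TCub : Prop := ∀ (n : ℕ) (K0 : Set (E n)), IsCompact K0 → ∃ Q : Set (E n),
  MeasurableSet Q ∧ Bornology.IsBounded Q ∧ K0 ⊆ Q ∧ ∀ θ > 0,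
  ∃ (N : ℕ) (S : Fin N → Set (E n)) (C : ℝ), (K0 = ∅ → N = 0) ∧ (∀ i, MeasurableSet (S i)) ∧
    (∀ i, S i ⊆ Q) ∧ 0 ≤ C ∧ ∀ v : E n → ℝ, ContDiff ℝ 1 v →
      ∫ x in Q, v x ^ 2 ≤ θ * (∫ x in Q, ‖fderiv ℝ v x‖ ^ 2) +
        C * ∑ i, (∫ x in S i, v x) ^ 2

/-- CUF (150 lines). The same for forms. Hypotheses: StDlv TNrm TRho TCub.
PROOF. `Q` from CUB; its closure is compact, so on `Q`: `0 < c ≤ vol ≤ c'` (DLV), and with `w = ∑ a, g(w,F_a) F_a` (`Onb.expd`), `|g(w,F_a)| ≤ C‖w‖`: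
`‖fderiv ℝ (fun y => v y I) x‖² ≤ C₁ ∑ a, (fderiv ℝ v x (F_a) I)²`; `fderiv ℝ v x (F_a) = ∇_a v + ρ(G_a) v` and RHO (5) (`G` is bounded on `Q`):
`∑ I, ‖fderiv (v · I)‖² ≤ C₂ (NF v + q2 v)` on `Q`. CUB for every component with `θ' > 0`: `∫_Q q2 v ≤ θ' C₂ ∫_Q (NF v + q2 v) + C ∑ (∫_{S_i} v_I)²`; if
`θ' C₂ ≤ 1/2` then `∫_Q q2 v ≤ 2 θ' C₂ ∫_Q NF v + 2 C ∑ (∫_{S_i} v_I)²`. Multiply by `c'`, use `1 ≤ vol/c` in the integral of `NF v`, and choose `θ'` small. The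
pairs `(i,I)` are `N * n^j` many (`Fintype.equivFin`). -/
def TCuf : Prop := ∀ (n j : ℕ) (g : E n → Bl n) (Γ : E n → Bm n) (F : Fin n → E n → E n)
  (G : E n → Fin n → Fin n → Fin n → ℝ), IsMet g → IsChr g Γ → Frm g Γ F G →
  ∀ K0 : Set (E n), IsCompact K0 → ∃ Q : Set (E n),
  MeasurableSet Q ∧ Bornology.IsBounded Q ∧ K0 ⊆ Q ∧ ∀ θ > 0,
  ∃ (N : ℕ) (S : Fin N → Set (E n)) (I : Fin N → Fin j → Fin n) (C : ℝ),
    (K0 = ∅ → N = 0) ∧ (∀ i, MeasurableSet (S i)) ∧ (∀ i, S i ⊆ Q) ∧ 0 ≤ C ∧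
    ∀ v : E n → Tn n j, ContDiff ℝ ∞ v →
      ∫ x in K0, q2 (v x) * vol g x ≤ θ * (∫ x in Q, NF F G v x * vol g x) +
        C * ∑ i, (∫ x in S i, v x (I i)) ^ 2

/-! ## Main estimate -/

/-- THJ (280 lines). Primitives with small covariant derivative (LH: module THE). Hypotheses: StDlc StWt StCut StDlv TNrm
TDer TBoj THpj TFrj TLmj TCuf TDdz.
PROOF. `Λ` from BOJ, `Q` from CUF (degree `m+1`), `θ` with `Λ θ ≤ 1/4`, then `N, S, I, C` from CUF; `Nc = N`. `R0`: `b ≤ R0` on the compact closure of `Q`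
(`b` is continuous: `|b x - b y| ≤ dg g x y`, DLC). Let `R ≥ R0` and `P_i` be given with primitives `u_i`
(smooth, alternating, `dF u_i = P_i`), `h = ∑ i, q2 (u_i)`, `T ≥ 0` from WT (`R`, `h`), `ε = 1/((m+1)(T+1))`, `f` from WT, `W = wt g f` (`W = vol` on
`{b ≤ R}`, `W ≤ vol`). `A` = alternating tensors of degree `m+1`, `S' = {dF β | β : E n → Tn n m smooth, alternating, compact support}` (a subspace by DER).
HPJ for each `i`: `η_i` with `∫ q2 η_i W ≤ ∫ q2 u_i W`, weakly coclosed, and for every `κ` a form `u_i + dF β` with `dF (u_i + dF β) = P_i` (DDZ) close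
to `η_i` in `L²(W)`. `L c = (∫_{S_k} (∑ i, c_i η_i x (I_k)))_k`, a linear map (`η_i` is integrable on bounded sets: `L2t` because `W` is locally bounded
below). Let `∑ c_i² = 1`, `L c = 0`, `η = ∑ c_i η_i`, `P = ∑ c_i P_i`. Then `∫ q2 η W ≤ ∑ ∫ q2 η_i W ≤ ∫ h W ≤ T` (NRM (5)), `η` is alternating, `L2t`, weakly
coclosed, and a local `L²` limit of forms with exterior derivative `P`; FRJ: `ApJ`. LMJ for `K = {b ≤ R}` and `κ' > 0`: `θ'` with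
`∫_K q2 (θ' - η) vol ≤ κ'` and `X = ∫_K NF θ' vol ≤ ∫ q2 P vol + (m+1) ε T + Λ ∫_{K0} q2 η vol + κ'`, `(m+1) ε T ≤ 1`. `∫_{K0} q2 η vol ≤ 2 ∫_{K0} q2 θ' vol + 2κ'` and by CUF
`2 Λ ∫_{K0} q2 θ' vol ≤ 2 Λ θ X + 2 Λ C ∑ (∫_{S_k} θ'(I_k))² ≤ X/2 + 2ΛC ∑ (∫_{S_k} (θ' - η)(I_k))²` as `L c = 0`; the last sum is `≤ C' κ'` (Cauchy-Schwarz). So
`X ≤ 2 (∫ q2 P vol + 1) + C'' κ' ≤ 2 ∫ q2 P vol + 3` for `κ'` small. `θ'' = ∑ c_i (u_i + dF β_i)` with `∫_K q2 (θ'' - η) vol ≤ κ/4`, `κ' ≤ κ/4`. -/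
def TThj : Prop := ∀ (n m : ℕ) (g : E n → Bl n) (Γ : E n → Bm n) (F : Fin n → E n → E n)
  (G : E n → Fin n → Fin n → Fin n → ℝ), IsMet g → IsChr g Γ → Frm g Γ F G →
  ∀ (p : E n) (b : E n → ℝ) (κ₀ r0 : ℝ), Bus g Γ p b κ₀ r0 →
  ∀ K0 : Set (E n), IsCompact K0 → WPos g Γ F m K0 →
  ∃ (Nc : ℕ) (R0 : ℝ), (K0 = ∅ → Nc = 0) ∧ ∀ R, R0 ≤ R →
  ∀ (M : ℕ) (P : Fin M → E n → Tn n (m + 2)), (∀ i, Hf g F G (P i)) →
  ∃ L : (Fin M → ℝ) →ₗ[ℝ] (Fin Nc → ℝ), ∀ c : Fin M → ℝ, ∑ i, c i ^ 2 = 1 → L c = 0 →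
  ∀ κ > 0, ∃ θ' θ'' : E n → Tn n (m + 1), ContDiff ℝ ∞ θ' ∧ ContDiff ℝ ∞ θ'' ∧ Al θ' ∧
    Al θ'' ∧ (∀ x, dF F G θ'' x = ∑ i, c i • P i x) ∧
    ∫ x in {x | b x ≤ R}, q2 (θ' x - θ'' x) * vol g x ≤ κ ∧
    ∫ x in {x | b x ≤ R}, NF F G θ' x * vol g x ≤
      2 * (∫ x, q2 (∑ i, c i • P i x) * vol g x) + 3

/-- PTJ (150 lines). Estimate of a form vanishing at `x` (LH: module PTH). Hypotheses: StChr StMg StRgc TNrm TRho.
PROOF. Let `c` be a metric geodesic from `x` to `y` (MG), `v` its velocity (RGC), `g(v,v) = d²`, `d = dg g x y`; `v^a = g(v,F_a)`, `∑ (v^a)² = d²`. The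
function `φ(t) = q2 (ζ (c t))` is `C¹` on `[0,1]`, `φ 0 = 0`; `D_v ζ = ∑ a, v^a (∇_a ζ + ρ(G_a) ζ)`, and `⟨ρ(G_a)ζ,ζ⟩ = 0` by RHO (2); so
`|φ'| = 2|⟨∑ v^a ∇_a ζ, ζ⟩| ≤ 2 d √(NF ζ (c t)) √φ` (NRM (3), (5)). For `δ > 0` the function `s = √(φ + δ²)` satisfies `s' ≤ d √(NF ζ (c t))`, so
`√(φ 1) ≤ δ + d ∫_0^1 √(NF ζ (c t)) dt`; `δ → 0`, Cauchy-Schwarz: `φ 1 ≤ d² ∫_0^1 NF ζ (c t) dt`, and `c t ∈ Gt g t x y`. -/
def TPtj : Prop := ∀ (n j : ℕ) (g : E n → Bl n) (Γ : E n → Bm n) (F : Fin n → E n → E n)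
  (G : E n → Fin n → Fin n → Fin n → ℝ), IsMet g → IsChr g Γ → Frm g Γ F G → Cpl g →
  ∀ ζ : E n → Tn n j, ContDiff ℝ ∞ ζ → ∀ x y, ζ x = 0 →
    ENNReal.ofReal (q2 (ζ y)) ≤ ENNReal.ofReal (dg g x y ^ 2) *
      ∫⁻ t in Icc (0 : ℝ) 1, HS g (NF F G ζ) t x y

/-- RKJ (180 lines). Rank argument (LH: module RK). Hypotheses: StMet StUsc StSeg TNrm TDim TDer TPtj.
PROOF. `NF F G θ` is continuous for smooth `θ`. `h = ∑ i, NF (θ i)`, `Φ x = ∫⁻_{y ∈ D} ∫⁻_{t ∈ [0,1]} HS g h t x y` (measurable by USC, Tonelli). By SEG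
`∫⁻_D Φ ≤ 2^n mg D ∫⁻_D h`, so (`0 < mg D < ∞`) there is `x ∈ D` with `Φ x ≤ 2^n ∫⁻_D h`. By DIM there is `c` with `∑ c_i² = 1`, `∑ c_i • θ_i x = 0`.
`ζ = ∑ c_i • θ_i` is smooth, `NF ζ ≤ h` (DER linearity, NRM (5) for every `a`), `HS` is monotone in the function, PTJ for `y ∈ D`:
`ofReal (q2 (ζ y)) ≤ ofReal (Δ²) ∫⁻ HS g h t x y dt`. Integrate over `y ∈ D`. -/
def TRkj : Prop := ∀ (n j : ℕ) (g : E n → Bl n) (Γ : E n → Bm n) (F : Fin n → E n → E n)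
  (G : E n → Fin n → Fin n → Fin n → ℝ), IsMet g → IsChr g Γ → Frm g Γ F G → Cpl g →
  Sec g Γ → ∀ D : Set (E n), MeasurableSet D → mg g D ≠ 0 → mg g D ≠ ⊤ →
  (∀ x ∈ D, ∀ y ∈ D, ∀ t ∈ Icc (0 : ℝ) 1, Gt g t x y ⊆ D) →
  ∀ Δ : ℝ, 0 < Δ → (∀ x ∈ D, ∀ y ∈ D, dg g x y ≤ Δ) →
  ∀ θ : Fin (n.choose j + 1) → E n → Tn n j, (∀ i, ContDiff ℝ ∞ (θ i)) → (∀ i, Al (θ i)) →
  ∃ c : Fin (n.choose j + 1) → ℝ, ∑ i, c i ^ 2 = 1 ∧
    ∫⁻ y in D, ENNReal.ofReal (q2 (∑ i, c i • θ i y)) ∂(mg g) ≤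
      ENNReal.ofReal (2 ^ n * Δ ^ 2) *
        ∫⁻ y in D, ENNReal.ofReal (∑ i, NF F G (θ i) y) ∂(mg g)

/-- PAJ (80 lines). Integration by parts. Hypotheses: StDlv TDer TLbz TAdj.
PROOF. ADJ with `f = 0`, `u = P`, `β = χ ζ`: `∫ ⟨P, dF (χζ)⟩ vol = - ∫ ⟨dlF 0 P, χζ⟩ vol = 0` by `Hf.cocl`, and `dF (χζ) = χ P + wd (a ↦ Dχ(F_a) ζ)` (LBZ (2)).
Both terms are continuous with compact support. (`wt g (fun _ => 0) x = vol g x`.) -/
def TPaj : Prop := ∀ (n j : ℕ) (g : E n → Bl n) (Γ : E n → Bm n) (F : Fin n → E n → E n)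
  (G : E n → Fin n → Fin n → Fin n → ℝ), IsMet g → IsChr g Γ → Frm g Γ F G →
  ∀ P : E n → Tn n (j + 1), Hf g F G P → ∀ ζ : E n → Tn n j, ContDiff ℝ ∞ ζ →
  (∀ x, dF F G ζ x = P x) → ∀ χ, Cc χ →
    ∫ x, χ x * q2 (P x) * vol g x =
      -∫ x, ipt (P x) (wd (fun a => fderiv ℝ χ x (F a x) • ζ x)) * vol g x

/-- KEJ (280 lines). Main estimate (LH: module KEY). Hypotheses: StMet StDlc StBus StCvd StCut StDlv TNrm TDer TRkj TPaj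
TThj.
PROOF. `Bus g Γ p b κ₀ r0` from BUS, `Nc, R0` from THJ, `N = n.choose (m+1)`, `M = N + 1 + Nc`. `q = ∑ i, q2 (P_i)` (integrable with `vol`),
`t(R) = ∫_{b ≥ R/2} q vol → 0` as `R → ∞`. Let `R ≥ max 9 R0`, `κ₀ r0 ≤ R`, `b p < R`, `K ⊆ {b ≤ R/2}`, `D = {b < R}`: open, nonempty, in a compact set, so
`0 < mg D < ∞`, convex and `Δ = 2R/κ₀` by CVD. `L` from THJ for the `M` forms; its kernel has dimension `≥ M - Nc = N + 1`, so there are `N+1` vectors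
`c^0, ..., c^N` in the kernel, orthonormal for the standard inner product (a subspace of `EuclideanSpace ℝ (Fin M)`,
`stdOrthonormalBasis`). THJ with `κ = 1/(N+1)` for each `c^a`: `θ'_a, θ''_a`. RKJ for `θ'_0..θ'_N` (degree `m+1`): unit vector `e`. `c = ∑ a, e_a c^a` is a
unit vector of `ℝ^M`; with `ζ = ∑ e_a θ''_a`: `dF ζ = ∑ i, c_i P_i =: P_c` (DER), and `∫_D q2 (∑ e_a θ'_a) vol ≤ 2^n Δ² ∑ a, (2 ∫ q2 (P_{c^a}) vol + 3)`,
`∫_D q2 (∑ e_a (θ'_a - θ''_a)) vol ≤ ∑ κ = 1`, `q2 (P_{c^a}) ≤ q`. So `∫_D q2 ζ vol ≤ C' R²`, `C'` independent of `R`. `P_c` satisfies `Hf` (linearity, DER; the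
primitive is `ζ`). PAJ with `χ` from CUT, NRM (3), (6) and `∑ a, (Dχ(F_a))² ≤ (C/R)²` (with `w = ∑ a, Dχ(F_a) F_a`: `g(w,w) = Dχ(w) ≤ (C/R) √g(w,w)`):
`∫ χ q2 (P_c) vol ≤ ∫_{D, b ≥ R/2} √(q2 P_c) √(m+2) (C/R) √(q2 ζ) vol ≤ (C''/R) √(t(R)) √(C' R²)` (Cauchy-Schwarz, `q2 P_c ≤ q`). So
`∫_K q2 (P_c) vol ≤ const * √(t(R)) ≤ δ` for `R` large. -/
def TKej : Prop := ∀ (n m : ℕ) (g : E n → Bl n) (Γ : E n → Bm n) (F : Fin n → E n → E n)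
  (G : E n → Fin n → Fin n → Fin n → ℝ), 1 ≤ n → IsMet g → IsChr g Γ → Frm g Γ F G →
  Cpl g → Sec g Γ → ∀ K0 : Set (E n), IsCompact K0 → WPos g Γ F m K0 →
  ∃ Nc : ℕ, (K0 = ∅ → Nc = 0) ∧
  ∀ P : Fin (n.choose (m + 1) + 1 + Nc) → E n → Tn n (m + 2), (∀ i, Hf g F G (P i)) →
  ∀ K : Set (E n), IsCompact K → ∀ δ > 0,
  ∃ c : Fin (n.choose (m + 1) + 1 + Nc) → ℝ, ∑ i, c i ^ 2 = 1 ∧
    ∫ x in K, q2 (∑ i, c i • P i x) * vol g x ≤ δ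

/-- MTJ (120 lines). Linear dependence (LH: module MT). Hypotheses: StDlv TNrm TKej.
PROOF. KEJ for `K_k = closedBall 0 k`, `δ = 1/(k+1)`: unit vectors `c_k`. A subsequence converges to a unit vector `c`. For fixed `K` the function
`c ↦ ∫_K q2 (∑ c_i P_i) vol` is continuous (a quadratic form in `c` with coefficients `∫_K ⟨P_i,P_j⟩ vol`) and its values at `c_k` are `≤ 1/(k+1)` for
large `k`; so `∫_K q2 (∑ c_i P_i) vol = 0` for every ball `K`; the integrand is continuous and nonnegative, so it vanishes (NRM (1)). -/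
def TMtj : Prop := ∀ (n m : ℕ) (g : E n → Bl n) (Γ : E n → Bm n) (F : Fin n → E n → E n)
  (G : E n → Fin n → Fin n → Fin n → ℝ), 1 ≤ n → IsMet g → IsChr g Γ → Frm g Γ F G →
  Cpl g → Sec g Γ → ∀ K0 : Set (E n), IsCompact K0 → WPos g Γ F m K0 →
  ∃ Nc : ℕ, (K0 = ∅ → Nc = 0) ∧
  ∀ P : Fin (n.choose (m + 1) + 1 + Nc) → E n → Tn n (m + 2), (∀ i, Hf g F G (P i)) →
  ∃ c : Fin (n.choose (m + 1) + 1 + Nc) → ℝ, ∑ i, c i ^ 2 = 1 ∧ ∀ x, ∑ i, c i • P i x = 0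

end Helper62.DSH
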