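import Pool.Agent.Helper62.DSH.Main
import Pool.Agent.Helper11.DSH.M_FMK
import Pool.Agent.Helper12.DSH.M_LMJ
import Pool.Agent.Helper15.DSH.M_FRD
import Pool.Agent.Helper16.DSH.M_CUF
import Pool.Agent.Helper18.DSH.M_CUA
import Pool.Agent.Helper2.DSH.M_FRJ
import Pool.Agent.Helper21.DSH.M_RKJ
import Pool.Agent.Helper24.DSH.M_DER
import Pool.Agent.Helper27.DSH.M_BRC
import Pool.Agent.Helper28.DSH.M_OPR
import Pool.Agent.Helper29.DSH.M_LBZ
import Pool.Agent.Helper32.DSH.M_MTJ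
import Pool.Agent.Helper33.DSH.M_RHO
import Pool.Agent.Helper34.DSH.M_GFR
import Pool.Agent.Helper37.DSH.M_HPJ
import Pool.Agent.Helper39.DSH.M_INV
import Pool.Agent.Helper40.DSH.M_STA
import Pool.Agent.Helper41.DSH.M_BRS
import Pool.Agent.Helper47.DSH.M_THJ
import Pool.Agent.Helper48.DSH.M_ADJ
import Pool.Agent.Helper5.DSH.M_CUB
import Pool.Agent.Helper51.DSH.M_PTW
import Pool.Agent.Helper54.DSH.M_KEJ
import Pool.Agent.Helper54.DSH.M_PAJ
import Pool.Agent.Helper6.DSH.M_RCI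
import Pool.Agent.Helper63.DSH.M_FRM
import Pool.Agent.Helper66.DSH.M_DVG
import Pool.Agent.Helper70.DSH.M_BOJ
import Pool.Agent.Helper75.DSH.M_PTJ
import Pool.Agent.Helper76.DSH.M_DIM
import Pool.Agent.Helper8.DSH.M_ALT
import Pool.Agent.Helper80.DSH.M_FRE
import Pool.Agent.Helper81.DSH.M_PLJ
import Pool.Agent.Helper82.DSH.M_FRG
import Pool.Agent.Helper84.DSH.M_WBR
import Pool.Agent.Helper89.DSH.M_SQD
import Pool.Agent.Helper95.DSH.M_NRM
import Pool.Agent.Helper97.DSH.M_DDZ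
import Pool.Agent.Helper98.DSH.M_CRV

/-!
# Project DSH: all modules together
-/

set_option autoImplicit false

noncomputable section

namespace Helper62.DSH

open Helper62.LH

theorem pAlt : TAlt := _root_.Pool.Agent.Helper8.DSH.hAlt
theorem pRho : TRho := _root_.Pool.Agent.Helper33.DSH.hRho
theorem pSqd : TSqd := _root_.Pool.Agent.Helper89.DSH.hSqd pAlt
theorem pNrm : TNrm := _root_.Pool.Agent.Helper95.DSH.hNrm
theorem pDim : TDim := _root_.Pool.Agent.Helper76.DSH.hDim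
theorem pFrm : TFrm := _root_.Pool.Agent.Helper63.DSH.hFrm
theorem pGfr : TGfr := _root_.Pool.Agent.Helper34.DSH.hGfr Helper62.LH.pChr
theorem pCrv : TCrv := _root_.Pool.Agent.Helper98.DSH.hCrv Helper62.LH.pChr
theorem pDer : TDer := _root_.Pool.Agent.Helper24.DSH.hDer pRho pSqd
theorem pLbz : TLbz := _root_.Pool.Agent.Helper29.DSH.hLbz pRho
theorem pRci : TRci := _root_.Pool.Agent.Helper6.DSH.hRci Helper62.LH.pChr pRho pCrv
theorem pDvg : TDvg := _root_.Pool.Agent.Helper66.DSH.hDvg Helper62.LH.pDiv Helper62.LH.pTr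
theorem pPtw : TPtw := _root_.Pool.Agent.Helper51.DSH.hPtw pDer pLbz pRci
theorem pBoj : TBoj := _root_.Pool.Agent.Helper70.DSH.hBoj Helper62.LH.pChr pRho pSqd pNrm pDer pDvg pPtw
theorem pAdj : TAdj := _root_.Pool.Agent.Helper48.DSH.hAdj pSqd pDer pLbz pDvg
theorem pWbr : TWbr := _root_.Pool.Agent.Helper84.DSH.hWbr
theorem pOpr : TOpr := _root_.Pool.Agent.Helper28.DSH.hOpr Helper62.LH.pCur pRho pAlt
theorem pPlj : TPlj := _root_.Pool.Agent.Helper81.DSH.hPlj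
theorem pBrc : TBrc := _root_.Pool.Agent.Helper27.DSH.hBrc Helper62.LH.pChr
theorem pFmk : TFmk := _root_.Pool.Agent.Helper11.DSH.hFmk pAlt
theorem pDdz : TDdz := _root_.Pool.Agent.Helper97.DSH.hDdz pBrc pFmk
theorem pInv : TInv := _root_.Pool.Agent.Helper39.DSH.hInv
theorem pSta : TSta := _root_.Pool.Agent.Helper40.DSH.hSta Helper62.LH.pEps Helper62.LH.pDtz pAlt
theorem pBrs : TBrs := _root_.Pool.Agent.Helper41.DSH.hBrs Helper62.LH.pCfr Helper62.LH.pEpf pDer pInv pSta pBrc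
theorem pHpj : THpj := _root_.Helper37.DSH.hHPJ pNrm
theorem pFrg : TFrg := _root_.Pool.Agent.Helper82.DSH.hFrg Helper62.LH.pMos Helper62.LH.pSch Helper62.LH.pDen Helper62.LH.pMoc Helper62.LH.pFrc
theorem pFrd : TFrd := _root_.Pool.Agent.Helper15.DSH.hFrd Helper62.LH.pMos pNrm pFrg
theorem pFre : TFre := _root_.Pool.Agent.Helper80.DSH.hFre Helper62.LH.pMos Helper62.LH.pDlv pNrm pDer pLbz pAdj pFrg
theorem pFrj : TFrj := _root_.Pool.Agent.Helper2.DSH.hFrj Helper62.LH.pSma Helper62.LH.pMos Helper62.LH.pMoc Helper62.LH.pDlv pNrm pFrd pFre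
theorem pLmj : TLmj := _root_.Pool.Agent.Helper12.DSH.hLmj Helper62.LH.pDlv pNrm pDer pLbz
theorem pCua : TCua := _root_.Pool.Agent.Helper18.DSH.hCua
theorem pCub : TCub := _root_.Pool.Agent.Helper5.DSH.hCub pCua
theorem pCuf : TCuf := _root_.Helper16.DSH.hCuf Helper62.LH.pDlv pNrm pRho pCub
theorem pThj : TThj := _root_.Pool.Agent.Helper47.DSH.hThj Helper62.LH.pDlc Helper62.LH.pWt Helper62.LH.pCut Helper62.LH.pDlv pNrm pDer pBoj pHpj pFrj pLmj pCuf pDdz
theorem pPtj : TPtj := _root_.Pool.Agent.Helper75.DSH.hPtj Helper62.LH.pChr Helper62.LH.pMg Helper62.LH.pRgc pNrm pRho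
theorem pRkj : TRkj := _root_.Pool.Agent.Helper21.DSH.hRkj Helper62.LH.pMet Helper62.LH.pUsc Helper62.LH.pSeg pNrm pDim pDer pPtj
theorem pPaj : TPaj := _root_.Pool.Agent.Helper54.DSH.hPaj Helper62.LH.pDlv pDer pLbz pAdj
theorem pKej : TKej := _root_.Pool.Agent.Helper54.DSH.hKej Helper62.LH.pMet Helper62.LH.pDlc Helper62.LH.pBus Helper62.LH.pCvd Helper62.LH.pCut Helper62.LH.pDlv pNrm pDer pRkj pPaj pThj
theorem pMtj : TMtj := _root_.Pool.Agent.Helper32.DSH.hMtj Helper62.LH.pDlv pNrm pKej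

end Helper62.DSH
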