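import Pool.Agent.Helper62.LH.StS

/-!
# Project DS (MP_087a81_gt, degree shift): definitions

THEOREM DS. Let `g` be a complete metric of nonnegative sectional curvature on `ℝⁿ`, `1 ≤ j ≤ n - 1`, and suppose that
the Weitzenboeck form `W_j` (the curvature term of the Bochner formula for `j`-forms) is nonnegative outside a compact
set. Then the spaces of `L²` harmonic forms of degree `j + 1` and of degree `n - j - 1` are finite dimensional, of
dimension `≤ (n choose j)` if `W_j ≥ 0` everywhere.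

The proof works with a global smooth orthonormal frame `F_1, ..., F_n` of `ℝⁿ`; a form of degree `j` is the family of its
components, a map `u : E n → Tn n j`. The geometry of project LH (`Pool/Agent/Helper62/LH`) is used: `E n`, `Bl n`,
`IsMet`, `IsChr`, `Onb`, `vol`, `Rm`, `Hs`, ...
-/

set_option autoImplicit false

open Set Filter Topology MeasureTheory
open Helper62.LH
open scoped ContDiff ENNReal

noncomputable section

namespace Helper62.DSH

/-! ## Component tensors -/

/-- component tensors of degree `j`: families of numbers indexed by `j`-tuples of indices -/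
abbrev Tn (n j : ℕ) : Type := (Fin j → Fin n) → ℝ

/-- `t` is alternating -/
def Altn {n j : ℕ} (t : Tn n j) : Prop :=
  ∀ (I : Fin j → Fin n) (σ : Equiv.Perm (Fin j)),
    t (I ∘ σ) = ((Equiv.Perm.sign σ : ℤ) : ℝ) * t I

/-- inner product of tensors: `(1/j!) ∑ I, s I t I` -/
def ipt {n j : ℕ} (s t : Tn n j) : ℝ := (∑ I, s I * t I) / j.factorial

/-- squared norm -/
def q2 {n j : ℕ} (t : Tn n j) : ℝ := ipt t t

/-- the derivation with matrix `A`: `(ρ(A)t)(I) = ∑ k l, A (I k) l t(I with I k replaced by l)` -/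
def rho {n j : ℕ} (A : Fin n → Fin n → ℝ) (t : Tn n j) : Tn n j :=
  fun I => ∑ k, ∑ l, A (I k) l * t (Function.update I k l)

/-- contraction with the first argument `a` -/
def ct {n j : ℕ} (a : Fin n) (t : Tn n (j + 1)) : Tn n j := fun K => t (Fin.cons a K)

/-- wedge type operation: `(wd p)(J) = ∑ c, (-1)^c p_{J c}(J without J c)` -/
def wd {n j : ℕ} (p : Fin n → Tn n j) : Tn n (j + 1) :=
  fun J => ∑ c : Fin (j + 1), (-1) ^ (c : ℕ) * p (J c) (fun i => J (c.succAbove i))

/-! ## Frames -/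

/-- `F` is a smooth positively oriented orthonormal frame of `g`, and `G` are its connection coefficients:
`∇_{F_a} F_b = ∑ c, G a b c F_c` -/
structure Frm {n : ℕ} (g : E n → Bl n) (Γ : E n → Bm n) (F : Fin n → E n → E n)
    (G : E n → Fin n → Fin n → Fin n → ℝ) : Prop where
  smF : ∀ a, ContDiff ℝ ∞ (F a)
  smG : ∀ a b c, ContDiff ℝ ∞ (fun x => G x a b c)
  onb : ∀ x, Onb g x (fun a => F a x)
  ori : ∀ x, vol g x * vdet (fun a => F a x) = 1
  cn : ∀ x a b, fderiv ℝ (F b) x (F a x) + Γ x (F a x) (F b x) = ∑ c, G x a b c • F c x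
  anti : ∀ x a b c, G x a b c = -G x a c b

/-- covariant derivative in the direction `F a` of the form with components `u` -/
def cv {n j : ℕ} (F : Fin n → E n → E n) (G : E n → Fin n → Fin n → Fin n → ℝ)
    (u : E n → Tn n j) (x : E n) (a : Fin n) : Tn n j :=
  fderiv ℝ u x (F a x) - rho (G x a) (u x)

/-- exterior derivative of the form with components `u` -/
def dF {n j : ℕ} (F : Fin n → E n → E n) (G : E n → Fin n → Fin n → Fin n → ℝ)
    (u : E n → Tn n j) (x : E n) : Tn n (j + 1) := wd (cv F G u x)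

/-- weighted divergence: `∑ a, (∇_a u)(a, ·) - (F_a f) u(a, ·)` -/
def dlF {n j : ℕ} (F : Fin n → E n → E n) (G : E n → Fin n → Fin n → Fin n → ℝ)
    (f : E n → ℝ) (u : E n → Tn n (j + 1)) (x : E n) : Tn n j :=
  ∑ a, (ct a (cv F G u x a) - fderiv ℝ f x (F a x) • ct a (u x))

/-- `|∇u|²` -/
def NF {n j : ℕ} (F : Fin n → E n → E n) (G : E n → Fin n → Fin n → Fin n → ℝ)
    (u : E n → Tn n j) (x : E n) : ℝ := ∑ a, q2 (cv F G u x a)

/-- the curvature in the frame: `g(R(F_a,F_b)F_c,F_l)` -/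
def Rc {n : ℕ} (g : E n → Bl n) (Γ : E n → Bm n) (F : Fin n → E n → E n) (x : E n)
    (a b c l : Fin n) : ℝ := g x (Rm Γ x (F a x) (F b x) (F c x)) (F l x)

/-- the Weitzenboeck form: `∑ a b, ⟨t(a,·), (ρ(R a b) t)(b,·)⟩` -/
def Wz {n m : ℕ} (R : Fin n → Fin n → Fin n → Fin n → ℝ) (t : Tn n (m + 1)) : ℝ :=
  ∑ a, ∑ b, ipt (ct a t) (ct b (rho (R a b) t))

/-- all values are alternating -/
def Al {n j : ℕ} (u : E n → Tn n j) : Prop := ∀ x, Altn (u x)

/-- all components are locally square integrable -/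
def L2t {n j : ℕ} (u : E n → Tn n j) : Prop := ∀ I, L2l (fun x => u x I)

/-- mollification of all components -/
def mt {n j : ℕ} (ρ : E n → ℝ) (ε : ℝ) (u : E n → Tn n j) (x : E n) : Tn n j :=
  fun I => mo ρ ε (fun y => u y I) x

/-- the weight `e^{-f} vol` -/
def wt {n : ℕ} (g : E n → Bl n) (f : E n → ℝ) (x : E n) : ℝ := Real.exp (-f x) * vol g x

/-- the Weitzenboeck form is nonnegative outside `K0` -/
def WPos {n : ℕ} (g : E n → Bl n) (Γ : E n → Bm n) (F : Fin n → E n → E n) (m : ℕ)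
    (K0 : Set (E n)) : Prop :=
  ∀ x, x ∉ K0 → ∀ t : Tn n (m + 1), Altn t → 0 ≤ Wz (Rc g Γ F x) t

/-- the integrated Bochner inequality for forms of degree `m + 1`, with defect `Λ` on `K0` -/
def Boc {n : ℕ} (g : E n → Bl n) (Γ : E n → Bm n) (F : Fin n → E n → E n)
    (G : E n → Fin n → Fin n → Fin n → ℝ) (m : ℕ) (K0 : Set (E n)) (Λ : ℝ) : Prop :=
  ∀ (f : E n → ℝ) (ε : ℝ), ContDiff ℝ ∞ f → (∀ x v, -(ε * g x v v) ≤ Hs Γ f x v v) →
  ∀ u : E n → Tn n (m + 1), ContDiff ℝ ∞ u → Al u → HasCompactSupport u →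
    ∫ x, NF F G u x * wt g f x ≤
      (∫ x, (q2 (dF F G u x) + q2 (dlF F G f u x)) * wt g f x) +
      (m + 1) * ε * (∫ x, q2 (u x) * wt g f x) + Λ * ∫ x in K0, q2 (u x) * wt g f x

/-- `P` are the components of an `L²` harmonic form of degree `j + 1` -/
structure Hf {n j : ℕ} (g : E n → Bl n) (F : Fin n → E n → E n)
    (G : E n → Fin n → Fin n → Fin n → ℝ) (P : E n → Tn n (j + 1)) : Prop where
  smooth : ContDiff ℝ ∞ P
  alt : Al P
  prim : ∃ u : E n → Tn n j, ContDiff ℝ ∞ u ∧ Al u ∧ ∀ x, dF F G u x = P x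
  cocl : ∀ x, dlF F G (fun _ => 0) P x = 0
  int : Integrable (fun x => q2 (P x) * vol g x)

/-- `η` has smooth approximations with exterior derivative almost `P` and weighted divergence almost `0` -/
def ApJ {n m : ℕ} (g : E n → Bl n) (F : Fin n → E n → E n)
    (G : E n → Fin n → Fin n → Fin n → ℝ) (f : E n → ℝ) (P : E n → Tn n (m + 2))
    (η : E n → Tn n (m + 1)) : Prop :=
  ∀ K, IsCompact K → ∀ κ > 0, ∃ u : E n → Tn n (m + 1), ContDiff ℝ ∞ u ∧ Al u ∧
    ∫ x in K, q2 (u x - η x) * vol g x ≤ κ ∧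
    ∫ x in K, q2 (dF F G u x - P x) * vol g x ≤ κ ∧
    ∫ x in K, q2 (dlF F G f u x) * vol g x ≤ κ

/-- the Weitzenboeck form of an alternating form `α` of degree `m + 1` at `x`, in a basis `f` orthonormal for `g x`
(up to the factor `m!`): `∑ a b K, α(f b, f K) (α(R(f b,f a)f a, f K) + ∑ c, α(f a, f K with R(f b,f a)f_{K c} at place c))` -/
def Wg {n m : ℕ} (Γ : E n → Bm n) (x : E n) (f : Fin n → E n) (α : E n [⋀^Fin (m + 1)]→L[ℝ] ℝ) :
    ℝ :=
  ∑ a, ∑ b, ∑ K : Fin m → Fin n, α (Fin.cons (f b) (fun i => f (K i))) *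
    (α (Fin.cons (Rm Γ x (f b) (f a) (f a)) (fun i => f (K i))) +
      ∑ c, α (Fin.cons (f a) (Function.update (fun i => f (K i)) c
        (Rm Γ x (f b) (f a) (f (K c))))))

end Helper62.DSH
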