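import Pool.Agent.Helper62.DSH.Fin
import Pool.Agent.Helper62.LH.Res

/-!
# Project DSH: definitions used by the final statement, and the main theorem from the modules
-/

set_option autoImplicit false
set_option maxSynthPendingDepth 3

open Set Filter Topology MeasureTheory
open scoped ContDiff ENNReal

noncomputable section

namespace Helper62.DSH

open Helper62.LH

variable {n k l m : ℕ}

/-- `f` is a basis of `ℝⁿ` orthonormal for `g_x` -/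
def IsOrtho (g : E n → Bl n) (x : E n) (f : Fin n → E n) : Prop :=
  ∀ a b, gx g x (f a) (f b) = if a = b then 1 else 0

/-- the values `f_{K_1}, ..., f_{K_m}` -/
def tup (f : Fin n → E n) (K : Fin m → Fin n) : Fin m → E n := fun i => f (K i)

/-- `(R(u,v)w, f_{K_1}, ..., f_{K_m})` inserted in `α`, plus the terms in which `R(u,v)` acts on one of the
`f_{K_c}` and the first argument is `w` -/
def weitzTerm (g : E n → Bl n) (x : E n) (f : Fin n → E n) (α : E n [⋀^Fin (m + 1)]→L[ℝ] ℝ)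
    (u v w : E n) (K : Fin m → Fin n) : ℝ :=
  α (Fin.cons (curv g x u v w) (tup f K)) +
    ∑ c, α (Fin.cons w (Function.update (tup f K) c (curv g x u v (f (K c)))))

/-- the Weitzenboeck form of degree `m + 1` (times `m!`): the curvature term in the Bochner formula for
`(m+1)`-forms, `∑ a b K, α(f_b, f_K) (α(R(f_b,f_a)f_a, f_K) + ∑ c, α(f_a, f_{K_1}, .., R(f_b,f_a)f_{K_c}, ..))` -/
def weitz (g : E n → Bl n) (x : E n) (f : Fin n → E n) (α : E n [⋀^Fin (m + 1)]→L[ℝ] ℝ) : ℝ :=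
  ∑ a, ∑ b, ∑ K : Fin m → Fin n,
    α (Fin.cons (f b) (tup f K)) * weitzTerm g x f α (f b) (f a) (f a) K

/-- the Weitzenboeck form of degree `j` is nonnegative at `x` (for `j = 1`: nonnegative Ricci curvature) -/
def WeitzNonneg (g : E n → Bl n) (m : ℕ) (x : E n) : Prop :=
  ∀ f, IsOrtho g x f → ∀ α : E n [⋀^Fin (m + 1)]→L[ℝ] ℝ, 0 ≤ weitz g x f α

theorem weitz_eq {g : E n → Bl n} (hg : IsMet g) {Γ : E n → Bm n} (hΓ : IsChr g Γ) (x : E n)
    (f : Fin n → E n) (α : E n [⋀^Fin (m + 1)]→L[ℝ] ℝ) : weitz g x f α = Wg Γ x f α := by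
  unfold weitz Wg weitzTerm tup
  simp only [curv_eq hg hΓ]

theorem dimLe_of_dep (hOnb : StOnb) (hCfr : StCfr) (hShp : StShp) (hDlv : StDlv)
    (h : k + l = n) {g : E n → Bl n} {Γ : E n → Bm n} (hg : IsMet g) (hΓ : IsChr g Γ) {N : ℕ}
    (hd : Dep N {φ : Fm n k | Harm h g φ}) :
    DimLe {φ : E n → E n [⋀^Fin k]→L[ℝ] ℝ | Harmonic h g φ} N := by
  obtain ⟨H, hH⟩ := exists_space hOnb hCfr hShp hDlv h hg hΓ
  obtain ⟨h1, h2⟩ := finite_of_dep H N (fun φ hφ => hd φ (fun i => (hH _).1 (hφ i)))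
  refine ⟨H, fun φ => ?_, h1, h2⟩
  rw [hH, Set.mem_ofPred_eq, harmonic_iff]

/-- both conclusions for one degree -/
theorem main_deg (hOnb : StOnb) (hCfr : StCfr) (hShp : StShp) (hDlv : StDlv) (hDua : StDua)
    (hBrc : TBrc) (hPlj : TPlj) (hBrs : TBrs) (hMtj : TMtj) (h : (m + 2) + l = n)
    (h' : l + (m + 2) = n) {g : E n → Bl n}
    {Γ : E n → Bm n} {F : Fin n → E n → E n} {G : E n → Fin n → Fin n → Fin n → ℝ}
    (hg : IsMet g) (hΓ : IsChr g Γ) (hF : Frm g Γ F G) (hc : Cpl g) (hs : Sec g Γ)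
    (K0 : Set (E n)) (hK0 : IsCompact K0) (hW : WPos g Γ F m K0) :
    ∃ N : ℕ, (K0 = ∅ → N = n.choose (m + 1)) ∧
      DimLe {φ : E n → E n [⋀^Fin (m + 2)]→L[ℝ] ℝ | Harmonic h g φ} N ∧
      DimLe {φ : E n → E n [⋀^Fin l]→L[ℝ] ℝ | Harmonic h' g φ} N := by
  obtain ⟨N, hN, hd⟩ := dep_j hCfr hBrc hPlj hBrs hMtj h hg hΓ hF hc hs K0 hK0 hW
  exact ⟨N, hN, dimLe_of_dep hOnb hCfr hShp hDlv h hg hΓ hd,
    dimLe_of_dep hOnb hCfr hShp hDlv h' hg hΓ (dep_dual hDua h' h hg hd)⟩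

theorem main_of (hOnb : StOnb) (hCfr : StCfr) (hShp : StShp) (hDlv : StDlv) (hDua : StDua)
    (hBrc : TBrc) (hPlj : TPlj) (hBrs : TBrs) (hMtj : TMtj) (hFrm : TFrm) (hGfr : TGfr)
    (hWbr : TWbr) (n : ℕ) (g : E n → Bl n) (hg : IsMet g) (hc : Cpl g)
    (hs : SecNonneg g) (K : Set (E n)) (hK : IsCompact K) :
    (∀ (m l : ℕ) (h : (m + 2) + l = n) (h' : l + (m + 2) = n),
      (∀ x ∉ K, WeitzNonneg g m x) → ∃ N : ℕ, (K = ∅ → N = n.choose (m + 1)) ∧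
        DimLe {φ : E n → E n [⋀^Fin (m + 2)]→L[ℝ] ℝ | Harmonic h g φ} N ∧
        DimLe {φ : E n → E n [⋀^Fin l]→L[ℝ] ℝ | Harmonic h' g φ} N) ∧
    (n ≤ 7 → (∀ x ∉ K, WeitzNonneg g 1 x) → ∀ (k l : ℕ) (h : k + l = n), ∃ N : ℕ,
      DimLe {φ : E n → E n [⋀^Fin k]→L[ℝ] ℝ | Harmonic h g φ} N) := by
  obtain ⟨Γ, hΓ⟩ := pChe n g hg
  have hs' : Sec g Γ := by
    intro x u v
    have := hs x u v
    rwa [curv_eq hg hΓ] at this
  obtain ⟨F, hF1, hF2, hF3⟩ := hFrm n g hg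
  obtain ⟨G, hF⟩ := hGfr n g Γ hg hΓ F hF1 hF2 hF3
  have first : ∀ (m l : ℕ) (h : (m + 2) + l = n) (h' : l + (m + 2) = n),
      (∀ x ∉ K, WeitzNonneg g m x) → ∃ N : ℕ, (K = ∅ → N = n.choose (m + 1)) ∧
        DimLe {φ : E n → E n [⋀^Fin (m + 2)]→L[ℝ] ℝ | Harmonic h g φ} N ∧
        DimLe {φ : E n → E n [⋀^Fin l]→L[ℝ] ℝ | Harmonic h' g φ} N := by
    intro m l h h' hW
    refine main_deg hOnb hCfr hShp hDlv hDua hBrc hPlj hBrs hMtj h h' hg hΓ hF hc hs' K hK ?_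
    intro x hx
    apply hWbr n m g Γ F G hg hΓ hF x
    intro f hf α
    rw [← weitz_eq hg hΓ]
    exact hW x hx f hf α
  refine ⟨first, ?_⟩
  intro hn hW k l h
  by_cases hk : k ≤ 2 ∨ l ≤ 2
  · exact ⟨_, main' n g hg hc hs k l h hk⟩
  · push Not at hk
    obtain ⟨hk1, hl1⟩ := hk
    rcases (by omega : k = 3 ∨ l = 3) with rfl | rfl
    · obtain ⟨N, -, h1, -⟩ := first 1 l h (by omega) hW
      exact ⟨N, h1⟩
    · obtain ⟨N, -, -, h1⟩ := first 1 k (by omega) h hW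
      exact ⟨N, h1⟩

end Helper62.DSH
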