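import Pool.Agent.Helper62.DSH.All

/-!
# Project DSH: the main theorem
-/

set_option autoImplicit false

noncomputable section

namespace Helper62.DSH

open Helper62.LH

/-- Main theorem of project DSH. -/
theorem main'' (n : ℕ) (g : E n → Bl n) (hg : IsMet g) (hc : Cpl g) (hs : SecNonneg g)
    (K : Set (E n)) (hK : IsCompact K) :
    (∀ (m l : ℕ) (h : (m + 2) + l = n) (h' : l + (m + 2) = n),
      (∀ x ∉ K, WeitzNonneg g m x) → ∃ N : ℕ, (K = ∅ → N = n.choose (m + 1)) ∧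
        DimLe {φ : E n → E n [⋀^Fin (m + 2)]→L[ℝ] ℝ | Harmonic h g φ} N ∧
        DimLe {φ : E n → E n [⋀^Fin l]→L[ℝ] ℝ | Harmonic h' g φ} N) ∧
    (n ≤ 7 → (∀ x ∉ K, WeitzNonneg g 1 x) → ∀ (k l : ℕ) (h : k + l = n), ∃ N : ℕ,
      DimLe {φ : E n → E n [⋀^Fin k]→L[ℝ] ℝ | Harmonic h g φ} N) :=
  main_of pOnb pCfr Helper62.LH.pShp Helper62.LH.pDlv pDua pBrc pPlj pBrs pMtj pFrm pGfr pWbr n g
    hg hc hs K hK

end Helper62.DSH
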