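import Pool.Agent.Helper62.DSH.Defs

/-!
# Project DSH, part A: algebra of component tensors, orthonormal frames, Bochner formula

Statements with complete proofs in the docstrings. Every module `M_XXX.lean` proves `theorem hXxx : TXxx` from the
hypotheses named in its row (statements `StXxx` of project LH and `TXxx` of this project are hypotheses, in the given
order; fewer are fine). Abbreviations in the proofs: `∇_a u = cv F G u x a`, `D_a = fderiv ℝ · x (F a x)`,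
`⟨s,t⟩ = ipt s t`, `ι_a = ct a`, `ρ(A) = rho A`, `δ u = dlF F G f u`, `f_a = fderiv ℝ f x (F a x)`, `W = wt g f`.
-/

set_option autoImplicit false

open Set Filter Topology MeasureTheory
open Helper62.LH
open scoped ContDiff ENNReal

noncomputable section

namespace Helper62.DSH

/-! ## Algebra of tensors -/

/-- ALT (120 lines). Alternating tensors are the components of alternating maps.
PROOF. (1) `M v = ∑ I, t I * ∏ k, v k (I k)` is multilinear and its value at `(Pi.single (I k) 1)_k` is `t I`. If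
`v p = v q`, `p ≠ q`, `σ = swap p q`: `v ∘ σ = v`; substitute `I → I ∘ σ` in the sum (`Equiv.sum_comp` for
`Equiv.arrowCongr`) and reindex the product by `σ`: `M v = ∑ I, t (I ∘ σ) ∏ k, v k (I (σ k)) = - ∑ I, t I ∏ k, v (σ k) (I k) =
- M v`. (2) `AlternatingMap.map_perm`. (3) By (1), or: if `I p = I q` then `I ∘ swap p q = I`, so `t I = - t I`. (4) By (1) and
`AlternatingMap.map_insertNth`, or with the cycle `Fin.cycleRange`. -/
def TAlt : Prop := ∀ (n j : ℕ),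
  (∀ t : Tn n j, Altn t → ∃ A : (Fin n → ℝ) [⋀^Fin j]→ₗ[ℝ] ℝ,
    ∀ I : Fin j → Fin n, A (fun k => Pi.single (I k) 1) = t I) ∧
  (∀ A : (Fin n → ℝ) [⋀^Fin j]→ₗ[ℝ] ℝ,
    Altn (fun I : Fin j → Fin n => A (fun k => Pi.single (I k) 1))) ∧
  (∀ t : Tn n j, Altn t → ∀ I : Fin j → Fin n, ¬ Function.Injective I → t I = 0) ∧
  ∀ t : Tn n (j + 1), Altn t → ∀ (p : Fin (j + 1)) (a : Fin n) (K : Fin j → Fin n),
    t (p.insertNth a K) = (-1) ^ (p : ℕ) * t (Fin.cons a K)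

/-- RHO (150 lines). Algebra of derivations.
PROOF. (1) `(ρ(A)ρ(B)t)(I) = ∑ k l, A (I k) l ∑ k' l', B (I[k→l] k') l' t(I[k→l][k'→l'])`. The terms with `k' = k` give
`∑ k, ∑ l, ∑ l', A (I k) l * B l l' * t(I[k→l'])`; the terms with `k' ≠ k` are symmetric under the exchange of `(A,k,l)` and `(B,k',l')`
(`Function.update_comm`) and cancel in the commutator. (2) `∑ I, ∑ l, A (I k) l s(I[k→l]) t(I)`: the map `(I,l) ↦ (I[k→l], I k)` is an
involution of the pairs, so this is `∑ I, ∑ l, A l (I k) s(I) t(I[k→l])`. (3) `Function.update (I ∘ σ) k l = (Function.update I (σ k) l) ∘ σ`;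
reindex by `σ`. (4) Split the sum over `k : Fin (j+1)` (`Fin.sum_univ_succ`): `Fin.update_cons_zero`, `Fin.cons_update`. (5)
`(∑ k l, A (I k) l t(I[k→l]))² ≤ (j n) C² ∑ k l, t(I[k→l])²` and `∑ I, ∑ l, t(I[k→l])² = n ∑ I, t(I)²` for every `k` (the same involution). -/
def TRho : Prop := ∀ (n j : ℕ) (A B : Fin n → Fin n → ℝ),
  (∀ t : Tn n j, rho A (rho B t) - rho B (rho A t) =
    rho (fun c l => ∑ m, (A c m * B m l - B c m * A m l)) t) ∧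
  ((∀ c l, A c l = -A l c) → ∀ s t : Tn n j, ipt (rho A s) t = -ipt s (rho A t)) ∧
  (∀ t : Tn n j, Altn t → Altn (rho A t)) ∧
  (∀ (t : Tn n (j + 1)) (b : Fin n),
    ct b (rho A t) = rho A (ct b t) + ∑ c, A b c • ct c t) ∧
  ∀ (C : ℝ) (t : Tn n j), (∀ a b, |A a b| ≤ C) → q2 (rho A t) ≤ (j * n * C) ^ 2 * q2 t

/-- SQD (180 lines). The norm of `wd p`. Hypotheses: TAlt.
PROOF. (1) By ALT choose alternating maps `A_a` on `Fin n → ℝ` with components `p a`; `wd p` are the components of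
`AlternatingMap.alternatizeUncurryFin (v ↦ ∑ a, v a • A_a)`. (2) By ALT (4) for `J = (c.insertNth (J c) K)`, `K i = J (c.succAbove i)`:
`(-1)^c t J = t(J c, K)`; so for every `c`: `∑ J, (-1)^c t J p_{J c}(K) = ∑ a, ∑ K, t(a,K) p_a(K)` (bijection `Fin.insertNthEquiv`), there are
`j+1` values of `c`. (3) By (1), (2) with `t = wd p`: `q2 (wd p) = ∑ a, ⟨ι_a (wd p), p a⟩` and
`(wd p)(a,I) = p_a(I) + ∑ k : Fin (m+1), (-1)^(k+1) p_{I k}(a, I without I k)` (`Fin.sum_univ_succ`, `Fin.cons` and `Fin.succ_succAbove_succ`).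
By ALT (4) `p_a(I) = (-1)^k p_a(I k, I without I k)`; so for every `k`:
`∑ I, (-1)^(k+1) p_{I k}(a, I without I k) p_a(I) = - ∑ b, ∑ K, p_b(a,K) p_a(b,K)`; there are `m+1` values of `k`, `(m+1)/(m+1)! = 1/m!`. -/
def TSqd : Prop := ∀ n : ℕ,
  (∀ (j : ℕ) (p : Fin n → Tn n j), (∀ a, Altn (p a)) → Altn (wd p)) ∧
  (∀ (j : ℕ) (t : Tn n (j + 1)) (p : Fin n → Tn n j), Altn t →
    ipt t (wd p) = ∑ a, ipt (ct a t) (p a)) ∧
  ∀ (m : ℕ) (p : Fin n → Tn n (m + 1)), (∀ a, Altn (p a)) →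
    q2 (wd p) = ∑ a, q2 (p a) - ∑ a, ∑ b, ipt (ct a (p b)) (ct b (p a))

/-- NRM (150 lines). Norm inequalities.
PROOF. Finite sums. (3) Cauchy-Schwarz. (4) Young for every component. (5) `(∑ i, c_i t_i(I))² ≤ (∑ c_i²)(∑ t_i(I)²)`.
(6) `(∑ c, ± x_c)² ≤ (j+1) ∑ x_c²`, for every `c : Fin (j+1)`: `∑ J, (c_{J c} t(J without J c))² = (∑ a, c_a²)(∑ K, t(K)²)`
(`Fin.insertNthEquiv`), and `(j+1)(j+1)/(j+1)! = (j+1)/j!`. (8) `∑ a, ∑ K, t(a,K)² = ∑ J, t(J)²` (`Fin.consEquiv`),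
`1/j! = (j+1)/(j+1)!`. (7) Cauchy-Schwarz and (8). -/
def TNrm : Prop := ∀ (n j : ℕ),
  (∀ t : Tn n j, 0 ≤ q2 t ∧ (q2 t = 0 → t = 0) ∧ q2 t = (∑ I, t I ^ 2) / j.factorial) ∧
  (∀ (c : ℝ) (t : Tn n j), q2 (c • t) = c ^ 2 * q2 t) ∧
  (∀ s t : Tn n j, |ipt s t| ≤ √(q2 s) * √(q2 t)) ∧
  (∀ (s t : Tn n j) (r : ℝ), 0 < r → q2 (s + t) ≤ (1 + r) * q2 s + (1 + 1 / r) * q2 t) ∧
  (∀ (M : ℕ) (c : Fin M → ℝ) (t : Fin M → Tn n j),
    q2 (∑ i, c i • t i) ≤ (∑ i, c i ^ 2) * ∑ i, q2 (t i)) ∧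
  (∀ (c : Fin n → ℝ) (t : Tn n j),
    q2 (wd (fun a => c a • t)) ≤ (j + 1) * (∑ a, c a ^ 2) * q2 t) ∧
  (∀ (c : Fin n → ℝ) (t : Tn n (j + 1)),
    q2 (∑ a, c a • ct a t) ≤ (j + 1) * (∑ a, c a ^ 2) * q2 t) ∧
  ∀ t : Tn n (j + 1), ∑ a, q2 (ct a t) = (j + 1) * q2 t

/-- DIM (120 lines). Alternating tensors of degree `j` form a space of dimension at most `n.choose j`.
PROOF. For a set `S` of `j` indices let `I_S` be its increasing enumeration (`Finset.orderEmbOfFin`). The linear map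
`t ↦ (t I_S)_S` goes to a space of dimension `n.choose j` (`Fintype.card_finset_len`), so there is `c ≠ 0` with `∑ c_i t_i(I_S) = 0` for
all `S`; normalise `c`. `t = ∑ c_i t_i` is alternating; if `I` is not injective then `t I = 0` (`I ∘ swap = I`); otherwise
`I = I_S ∘ σ`, `S = range I`, so `t I = ± t I_S = 0`. -/
def TDim : Prop := ∀ (n j : ℕ) (t : Fin (n.choose j + 1) → Tn n j), (∀ i, Altn (t i)) →
  ∃ c : Fin (n.choose j + 1) → ℝ, ∑ i, c i ^ 2 = 1 ∧ ∑ i, c i • t i = 0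

/-! ## Frames -/

/-- FRM (180 lines). A global orthonormal frame (Gram-Schmidt).
PROOF. Induction on `m ≤ n`: there are smooth `F_a`, `a < m`, with `g(F_a,F_b) = δ_ab`, `(F_a x)_i = 0` for `i > a` and `(F_a x)_a > 0`. Step:
`v x = ee m - ∑_{a<m} g(ee m, F_a x) F_a x` is smooth, `g(v,F_a) = 0` for `a < m`, its coordinate `m` is `1` and its coordinates `i > m`
vanish, so `v x ≠ 0` and `g(v,v) > 0`; `F_m = v/√g(v,v)`. `Onb`: let `P` be the matrix with rows `F_a x`; `P gm Pᵀ = 1`, so `P` is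
invertible, `gm⁻¹ = Pᵀ P` (inv), `(det P)² det gm = 1` (det), and `expd` follows by applying `g(·, F_b)` to both sides
(the `F_b` span). See `Pool/Agent/Helper2/LH/M_ONB.lean` for similar computations. Orientation: `P` is lower triangular
(`Matrix.det_of_lowerTriangular`) with positive diagonal, so `vdet F = det P > 0`, `vol > 0` and `(vol vdet F)² = 1`. -/
def TFrm : Prop := ∀ (n : ℕ) (g : E n → Bl n), IsMet g → ∃ F : Fin n → E n → E n,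
  (∀ a, ContDiff ℝ ∞ (F a)) ∧ (∀ x, Onb g x (fun a => F a x)) ∧
  ∀ x, vol g x * vdet (fun a => F a x) = 1

/-- GFR (80 lines). Connection coefficients. Hypotheses: StChr.
PROOF. `G x a b c = g x (fderiv (F b) x (F a x) + Γ x (F a x) (F b x)) (F c x)` is smooth. `cn`: `Onb.expd`. `anti`: differentiate the
constant function `y ↦ g y (F b y) (F c y)` at `x` in the direction `F a x`:
`Dg(F_a)(F_b)(F_c) + g(DF_b(F_a),F_c) + g(F_b,DF_c(F_a)) = 0` and `Dg(F_a)(F_b)(F_c) = g(Γ(F_a,F_b),F_c) + g(F_b,Γ(F_a,F_c))` (CHR). -/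
def TGfr : Prop := ∀ (n : ℕ) (g : E n → Bl n) (Γ : E n → Bm n), IsMet g → IsChr g Γ →
  ∀ F : Fin n → E n → E n, (∀ a, ContDiff ℝ ∞ (F a)) → (∀ x, Onb g x (fun a => F a x)) →
  (∀ x, vol g x * vdet (fun a => F a x) = 1) → ∃ G, Frm g Γ F G

/-- CRV (120 lines). The curvature in the frame. Hypotheses: StChr.
PROOF. Let `N_{b,c} y = fderiv (F c) y (F b y) + Γ y (F b y) (F c y) = ∑ l, G y b c l • F l y` (`cn`). Differentiate both expressions at `x` in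
the direction `F_a` and add `Γ x (F_a) (N_{b,c})`. Second expression: `∑ l, (D_a G b c l) F_l + ∑ l, G b c l ∑ m, G a l m F_m`. First
expression: `D²F_c(F_a)(F_b) + DF_c(DF_b(F_a)) + DΓ(F_a)(F_b)(F_c) + Γ(DF_b(F_a),F_c) + Γ(F_b,DF_c(F_a)) + Γ(F_a,DF_c(F_b)) +
Γ(F_a,Γ(F_b,F_c))`. Subtract the same with `a, b` exchanged: `D²F_c` is symmetric, and `Γ(F_b,DF_c(F_a)) + Γ(F_a,DF_c(F_b))` is symmetric in
`a, b`; with `V = DF_b(F_a) - DF_a(F_b) = ∑ d, (G a b d - G b a d) F_d` (`cn`, symmetry of `Γ`) what remains is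
`Rm Γ x F_a F_b F_c + DF_c(V) + Γ(V,F_c)` and `DF_c(V) + Γ(V,F_c) = ∑ d, (G a b d - G b a d) ∑ l, G d c l F_l`. Take the inner product with `F_l`. -/
def TCrv : Prop := ∀ (n : ℕ) (g : E n → Bl n) (Γ : E n → Bm n) (F : Fin n → E n → E n)
  (G : E n → Fin n → Fin n → Fin n → ℝ), IsMet g → IsChr g Γ → Frm g Γ F G → ∀ x a b c l,
  Rc g Γ F x a b c l =
    fderiv ℝ (fun y => G y b c l) x (F a x) - fderiv ℝ (fun y => G y a c l) x (F b x) -
    (∑ m, (G x a c m * G x b m l - G x b c m * G x a m l)) -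
    ∑ d, (G x a b d - G x b a d) * G x d c l

/-- DER (180 lines). Rules for the covariant derivative, first part. Hypotheses: TRho TSqd.
PROOF. `cv F G u x a I = fderiv ℝ (fun y => u y I) x (F a x) - ∑ k l, G x a (I k) l * u x (update I k l)`. Smoothness: finite sums and products of
smooth functions (`contDiff_pi`, `ContDiff.fderiv_right`, `ContDiff.clm_apply`). Alternating: `fderiv ℝ u x v` is alternating because the
alternating tensors form a closed (finite dimensional) subspace, or: differentiate `u y (I ∘ σ) = sign σ * u y I`; `rho` by RHO (3);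
`wd` by SQD (1); contractions: for `σ : Perm (Fin j)` the permutation `Fin.cons 0 (succ ∘ σ)` of `Fin (j+1)` has the same sign
(`Equiv.Perm.decomposeFin` or `finSuccEquiv`-type lemma; or by ALT-type alternating maps). Linearity: `fderiv` is linear on
differentiable functions and `rho`, `wd`, `ct` are linear. Support: outside of `tsupport u` the function `u` vanishes in a
neighbourhood. -/
def TDer : Prop := ∀ (n j : ℕ) (g : E n → Bl n) (Γ : E n → Bm n) (F : Fin n → E n → E n)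
  (G : E n → Fin n → Fin n → Fin n → ℝ), Frm g Γ F G →
  (∀ u : E n → Tn n j, ContDiff ℝ ∞ u → (∀ a, ContDiff ℝ ∞ (fun x => cv F G u x a)) ∧
    ContDiff ℝ ∞ (dF F G u)) ∧
  (∀ (f : E n → ℝ) (u : E n → Tn n (j + 1)), ContDiff ℝ ∞ f → ContDiff ℝ ∞ u →
    ContDiff ℝ ∞ (dlF F G f u)) ∧
  (∀ u : E n → Tn n j, ContDiff ℝ ∞ u → Al u → (∀ x a, Altn (cv F G u x a)) ∧
    Al (dF F G u)) ∧
  (∀ t : Tn n (j + 1), Altn t → ∀ a, Altn (ct a t)) ∧
  (∀ (f : E n → ℝ) (u : E n → Tn n (j + 1)), ContDiff ℝ ∞ u → Al u → Al (dlF F G f u)) ∧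
  (∀ (M : ℕ) (c : Fin M → ℝ) (u : Fin M → E n → Tn n j), (∀ i, ContDiff ℝ ∞ (u i)) → ∀ x,
    (∀ a, cv F G (fun y => ∑ i, c i • u i y) x a = ∑ i, c i • cv F G (u i) x a) ∧
    dF F G (fun y => ∑ i, c i • u i y) x = ∑ i, c i • dF F G (u i) x) ∧
  (∀ (f : E n → ℝ) (M : ℕ) (c : Fin M → ℝ) (u : Fin M → E n → Tn n (j + 1)),
    (∀ i, ContDiff ℝ ∞ (u i)) → ∀ x,
    dlF F G f (fun y => ∑ i, c i • u i y) x = ∑ i, c i • dlF F G f (u i) x) ∧
  ∀ (u : E n → Tn n j) (x : E n), x ∉ tsupport u → u x = 0 ∧ (∀ a, cv F G u x a = 0) ∧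
    dF F G u x = 0

/-- LBZ (150 lines). Rules for the covariant derivative, second part: products. Hypotheses: TRho.
PROOF. (1) `D_a ⟨u,v⟩ = ⟨D_a u,v⟩ + ⟨u,D_a v⟩` and `⟨ρ(G_a)u,v⟩ + ⟨u,ρ(G_a)v⟩ = 0` by RHO (2) and `Frm.anti`. (2) `D_a(χu) = χ D_a u + (D_a χ) u`, `rho` and
`wd` are linear. (3) The same with `ct`. (4) `D_a (ι_b u) = ι_b (D_a u)` and RHO (4). -/
def TLbz : Prop := ∀ (n j : ℕ) (g : E n → Bl n) (Γ : E n → Bm n) (F : Fin n → E n → E n)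
  (G : E n → Fin n → Fin n → Fin n → ℝ), Frm g Γ F G →
  (∀ u v : E n → Tn n j, ContDiff ℝ ∞ u → ContDiff ℝ ∞ v → ∀ x a,
    fderiv ℝ (fun y => ipt (u y) (v y)) x (F a x) =
      ipt (cv F G u x a) (v x) + ipt (u x) (cv F G v x a)) ∧
  (∀ (χ : E n → ℝ) (u : E n → Tn n j), ContDiff ℝ ∞ χ → ContDiff ℝ ∞ u → ∀ x,
    (∀ a, cv F G (fun y => χ y • u y) x a =
      χ x • cv F G u x a + fderiv ℝ χ x (F a x) • u x) ∧
    dF F G (fun y => χ y • u y) x =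
      χ x • dF F G u x + wd (fun a => fderiv ℝ χ x (F a x) • u x)) ∧
  (∀ (f χ : E n → ℝ) (u : E n → Tn n (j + 1)), ContDiff ℝ ∞ χ → ContDiff ℝ ∞ u → ∀ x,
    dlF F G f (fun y => χ y • u y) x =
      χ x • dlF F G f u x + ∑ a, fderiv ℝ χ x (F a x) • ct a (u x)) ∧
  ∀ u : E n → Tn n (j + 1), ContDiff ℝ ∞ u → ∀ x a b,
    cv F G (fun y => ct b (u y)) x a = ct b (cv F G u x a) + ∑ c, G x a b c • ct c (u x)

/-- RCI (150 lines). Ricci identity. Hypotheses: StChr TRho TCrv.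
PROOF. With `v_b y = fderiv u y (F b y) - ρ(G_b)(u y)` and `w = F_a x`:
`D_w v_b = D²u(w)(F_b) + Du(DF_b(w)) - ρ(D_w G_b)(u) - ρ(G_b)(Du(w))` (the components of `rho` are finite sums of products). So
`∇_a∇_b u = D²u(F_a)(F_b) + Du(DF_b(F_a)) - ρ(D_aG_b)u - ρ(G_b)D_a u - ρ(G_a)D_b u + ρ(G_a)ρ(G_b)u`. Subtract the same with `a, b`
exchanged (`D²u` is symmetric, `ContDiffAt.isSymmSndFDerivAt`): `Du(DF_b(F_a) - DF_a(F_b)) = ∑ d, (G a b d - G b a d) D_d u` (`cn` and symmetry of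
`Γ`, CHR), `D_d u = ∇_d u + ρ(G_d)u`, and `ρ(G_a)ρ(G_b) - ρ(G_b)ρ(G_a)` by RHO (1). The terms with `ρ` are `- ρ(Rc x a b) u` by CRV and the linearity of
`rho` in the matrix. -/
def TRci : Prop := ∀ (n j : ℕ) (g : E n → Bl n) (Γ : E n → Bm n) (F : Fin n → E n → E n)
  (G : E n → Fin n → Fin n → Fin n → ℝ), IsMet g → IsChr g Γ → Frm g Γ F G →
  ∀ u : E n → Tn n j, ContDiff ℝ ∞ u → ∀ x a b,
    cv F G (fun y => cv F G u y b) x a - cv F G (fun y => cv F G u y a) x b =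
      (∑ d, (G x a b d - G x b a d) • cv F G u x d) - rho (Rc g Γ F x a b) (u x)

/-- DVG (120 lines). Divergence theorem in the frame. Hypotheses: StDiv StTr.
PROOF. `X y = ∑ a, Y y a • F a y` is `C¹` with compact support; StDiv for `X`. `cX Γ X x v = ∑ a, (DY_a(v) F_a + Y_a (DF_a(v) + Γ(v,F_a)))`
(`cX Γ X x = fderiv X x + (Γ x).flip (X x)`). By TR (last formula, for the basis `F`): `∑ i, (cX (ee i)) i = ∑ b, g(cX(F_b),F_b) =
∑ b, DY_b(F_b) + ∑ b, ∑ a, Y_a g(∑ c, G b a c F_c, F_b) = ∑ b, DY_b(F_b) + ∑ a, (∑ b, G b a b) Y_a`, and `Df(X) = ∑ a, Y_a f_a`. -/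
def TDvg : Prop := ∀ (n : ℕ) (g : E n → Bl n) (Γ : E n → Bm n) (F : Fin n → E n → E n)
  (G : E n → Fin n → Fin n → Fin n → ℝ), IsMet g → IsChr g Γ → Frm g Γ F G →
  ∀ f : E n → ℝ, ContDiff ℝ ∞ f → ∀ Y : E n → Fin n → ℝ, ContDiff ℝ 1 Y →
  HasCompactSupport Y →
    ∫ x, (∑ a, (fderiv ℝ (fun y => Y y a) x (F a x) +
      ((∑ b, G x b a b) - fderiv ℝ f x (F a x)) * Y x a)) * wt g f x = 0

/-- the vector field in the Bochner formula -/
def YB {n m : ℕ} (F : Fin n → E n → E n) (G : E n → Fin n → Fin n → Fin n → ℝ) (f : E n → ℝ)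
    (u : E n → Tn n (m + 1)) (x : E n) (b : Fin n) : ℝ :=
  ipt (dlF F G f u x) (ct b (u x)) - ∑ a, ipt (ct a (u x)) (ct b (cv F G u x a))

/-- PTW (220 lines). Pointwise Bochner identity. Hypotheses: StChr TRho TDer TLbz TRci.
PROOF. `d_b = ∑ c, G c b c - f_b`. Facts: (A) `D_b⟨v,w⟩ = ⟨∇_b v,w⟩ + ⟨v,∇_b w⟩` (LBZ (1)). (B) `∇_a(ι_b v) = ι_b ∇_a v + ∑ c, G a b c ι_c v`
(LBZ (4)). (C) for every smooth `v` of degree `m+1`: `∑ b, (∇_b(ι_b v) + d_b ι_b v) = ∑ b, (ι_b ∇_b v - f_b ι_b v)`, from (B) and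
`G b b c = - G b c b`; for `v = u` this is `δ u`. So, with `v = u` and `v = ∇_a u`:
`∑ b, (D_b Y_b + d_b Y_b) = ∑ b, ⟨∇_b δu, ι_b u⟩ + |δu|² - ∑ a b, ⟨∇_b ι_a u, ι_b ∇_a u⟩ - ∑ a, ⟨ι_a u, ∑ b, (ι_b ∇_b ∇_a u - f_b ι_b ∇_a u)⟩`.
By (B) and linearity `∇_a δu = ∑ b, (ι_b ∇_a∇_b u + ∑ c, G a b c ι_c ∇_b u - (D_a f_b) ι_b u - f_b ι_b ∇_a u - f_b ∑ c, G a b c ι_c u)` and
`⟨∇_b ι_a u, ι_b ∇_a u⟩ = ⟨ι_a ∇_b u, ι_b ∇_a u⟩ + ∑ c, G b a c ⟨ι_c u, ι_b ∇_a u⟩`. The terms `f_b ⟨ι_a u, ι_b ∇_a u⟩` cancel. The other terms with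
`f` are `- ∑ a b, (D_a f_b) ⟨ι_a u, ι_b u⟩ - ∑ a b c, f_b G a b c ⟨ι_a u, ι_c u⟩ = - ∑ a b, (D_a f_b - ∑ c, G a b c f_c) ⟨ι_a u, ι_b u⟩` (rename
`b, c`, antisymmetry), and `D_a f_b - ∑ c, G a b c f_c = D²f(F_a)(F_b) - Df(Γ(F_a,F_b)) = Hs Γ f x F_a F_b` by `cn`. What remains is
`∑ a b, ⟨ι_a u, ι_b (∇_a∇_b - ∇_b∇_a) u⟩ + ∑ a b c, G a b c ⟨ι_a u, ι_c ∇_b u⟩ - ∑ a b c, G b a c ⟨ι_c u, ι_b ∇_a u⟩`, here `∇_a∇_b u = cv (y ↦ cv u y b) x a`;
by RCI the first sum is `∑ a b d, (G a b d - G b a d) ⟨ι_a u, ι_b ∇_d u⟩ - Wz`, and after renaming and antisymmetry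
`∑ a b c, G a b c ⟨ι_a u, ι_c ∇_b u⟩ = - ∑ a b d, G a b d ⟨ι_a u, ι_b ∇_d u⟩`,
`∑ a b c, G b a c ⟨ι_c u, ι_b ∇_a u⟩ = - ∑ a b d, G b a d ⟨ι_a u, ι_b ∇_d u⟩`, so that everything cancels except `- Wz`. -/
def TPtw : Prop := ∀ (n m : ℕ) (g : E n → Bl n) (Γ : E n → Bm n) (F : Fin n → E n → E n)
  (G : E n → Fin n → Fin n → Fin n → ℝ), IsMet g → IsChr g Γ → Frm g Γ F G →
  ∀ (f : E n → ℝ) (u : E n → Tn n (m + 1)), ContDiff ℝ ∞ f → ContDiff ℝ ∞ u → ∀ x,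
    ∑ b, (fderiv ℝ (fun y => YB F G f u y b) x (F b x) +
      ((∑ c, G x c b c) - fderiv ℝ f x (F b x)) * YB F G f u x b) =
    q2 (dlF F G f u x) - (∑ a, ∑ b, ipt (ct a (cv F G u x b)) (ct b (cv F G u x a))) -
      (∑ a, ∑ b, Hs Γ f x (F a x) (F b x) * ipt (ct a (u x)) (ct b (u x))) -
      Wz (Rc g Γ F x) (u x)

/-- BOJ (200 lines). Weighted Bochner inequality for forms. Hypotheses: StChr TRho TSqd TNrm TDer TDvg TPtw.
PROOF. `Λ`: for all `x` and `t`: `|Wz (Rc x) t| ≤ C sup |Rc x| q2 t` (Cauchy-Schwarz, RHO (5), NRM (8)), `Rc g Γ F x a b c l` is continuous in `x`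
(CHR), so bounded on `K0`: there is `Λ ≥ 0` with `Wz (Rc x) t ≥ - Λ q2 t` for `x ∈ K0`; outside `K0` `Wz ≥ 0` for alternating `t`.
DVG for `Y = YB F G f u` (smooth, compact support) and PTW: `∫ ∑ a b, ⟨ι_a ∇_b u, ι_b ∇_a u⟩ W = ∫ (|δu|² - ∑ a b, f_ab ⟨ι_a u, ι_b u⟩ - Wz(u)) W`.
By SQD (3) (`∇_a u` is alternating, DER) the left side is `∫ (NF u - q2 (dF u)) W`. With `v_K = ∑ a, u(a,K) • F_a`:
`∑ a b, f_ab ⟨ι_a u, ι_b u⟩ = (1/m!) ∑ K, Hs Γ f x v_K v_K ≥ - ε (1/m!) ∑ K, g(v_K,v_K) = - ε (m+1) q2 u` (bilinearity of `Hs Γ f x`; `Onb.orth`; NRM (8)).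
All functions are continuous with compact support, so integrable. -/
def TBoj : Prop := ∀ (n m : ℕ) (g : E n → Bl n) (Γ : E n → Bm n) (F : Fin n → E n → E n)
  (G : E n → Fin n → Fin n → Fin n → ℝ), IsMet g → IsChr g Γ → Frm g Γ F G →
  ∀ K0 : Set (E n), IsCompact K0 → WPos g Γ F m K0 →
  ∃ Λ : ℝ, 0 ≤ Λ ∧ Boc g Γ F G m K0 Λ

/-- ADJ (120 lines). The weighted divergence is minus the adjoint of the exterior derivative. Hypotheses: TSqd TDer TLbz TDvg.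
PROOF. `Y_a = ⟨ι_a u, β⟩` (smooth, compact support). By LBZ (1), (4) and `G a a c = - G a c a`:
`∑ a, (D_a Y_a + (∑ b, G b a b - f_a) Y_a) = ∑ a, ⟨∇_a(ι_a u) + (∑ b, G b a b - f_a) ι_a u, β⟩ + ∑ a, ⟨ι_a u, ∇_a β⟩ = ⟨δu, β⟩ + ∑ a, ⟨ι_a u, ∇_a β⟩`, and the last
sum is `⟨u, wd (∇β)⟩ = ⟨u, dF β⟩` by SQD (2). DVG; both functions are continuous with compact support. -/
def TAdj : Prop := ∀ (n j : ℕ) (g : E n → Bl n) (Γ : E n → Bm n) (F : Fin n → E n → E n)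
  (G : E n → Fin n → Fin n → Fin n → ℝ), IsMet g → IsChr g Γ → Frm g Γ F G →
  ∀ f : E n → ℝ, ContDiff ℝ ∞ f → ∀ u : E n → Tn n (j + 1), ContDiff ℝ ∞ u → Al u →
  ∀ β : E n → Tn n j, ContDiff ℝ ∞ β → HasCompactSupport β →
    ∫ x, ipt (u x) (dF F G β x) * wt g f x = -∫ x, ipt (dlF F G f u x) (β x) * wt g f x

/-! ## Curvature conditions -/

/-- WBR (150 lines). The Weitzenboeck form of alternating maps.
PROOF. For alternating `t` let `α v = ∑ I, t I * ∏ k, g x (v k) (F (I k) x)`, an alternating map (see ALT (1): multilinear, and if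
`v p = v q` it changes its sign under the substitution `I → I ∘ swap p q`; continuous: finite dimension or a finite sum of products of
continuous linear maps) with `α (fun k => F (I k) x) = t I`. `f a = F a x` is orthonormal. By `Onb.expd` `Rm Γ x f_b f_a f_c = ∑ l, Rc x b a c l • f_l`, so
`Wg Γ x f α = ∑ a b K, t(b,K) (∑ l, Rc b a a l t(l,K) + ∑ c, ∑ l, Rc b a (K c) l t(a,K[c→l])) = m! Wz (Rc x) t` after the exchange of the names
`a, b`, because `ρ(R a b)t (b,K) = ∑ l, R a b b l t(l,K) + ∑ c l, R a b (K c) l t(b,K[c→l])` (`Fin.sum_univ_succ`). -/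
def TWbr : Prop := ∀ (n m : ℕ) (g : E n → Bl n) (Γ : E n → Bm n) (F : Fin n → E n → E n)
  (G : E n → Fin n → Fin n → Fin n → ℝ), IsMet g → IsChr g Γ → Frm g Γ F G → ∀ x,
  (∀ f : Fin n → E n, (∀ a b, g x (f a) (f b) = if a = b then 1 else 0) →
    ∀ α : E n [⋀^Fin (m + 1)]→L[ℝ] ℝ, 0 ≤ Wg Γ x f α) →
  ∀ t : Tn n (m + 1), Altn t → 0 ≤ Wz (Rc g Γ F x) t

/-- OPR (150 lines). Nonnegative curvature operator. Hypotheses: StCur TRho TAlt.
PROOF. `E_ab` is the matrix with `E_ab c l = 1` if `(c,l) = (a,b)`, minus the same for `(b,a)` (so `0` if `a = b`). (i) for alternating `s, t` of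
degree `m+1`: `⟨ρ(E_ab)t, s⟩ = ⟨ι_b t, ι_a s⟩ - ⟨ι_a t, ι_b s⟩`: `(ρ(E_ab)t)(I) = ∑ k, ([I k = a] t(I[k→b]) - [I k = b] t(I[k→a]))`, and for every `k` the sum
over `I` of the product with `s(I)` is `∑ K, (t(b,K)s(a,K) - t(a,K)s(b,K))` by ALT (4). (ii) `R a b` is antisymmetric in `a, b` (definition of `Rm`) and
`R a b c l = - R a b l c` (CUR). So with `s_ab = ρ(R a b)t` (alternating, RHO (3)): `Wz = ∑ a b, ⟨ι_a t, ι_b s_ab⟩ = (1/2) ∑ a b, (⟨ι_a t, ι_b s_ab⟩ -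
⟨ι_b t, ι_a s_ab⟩) = - (1/2) ∑ a b, ⟨ρ(E_ab)t, s_ab⟩`, and `s_ab = (1/2) ∑ c l, R a b c l ρ(E_cl)t`. (iii) So
`Wz = (1/4) ∑ a b c l, R a b l c ⟨ρ(E_ab)t, ρ(E_cl)t⟩ = (1/(4 (m+1)!)) ∑ I, ∑ a b c l, g(R(F_a,F_b)F_l,F_c) X_ab X_cl` with `X_ab = (ρ(E_ab)t)(I)`. For each
`I` the hypothesis for the `n * n` pairs `(X_ab • F_a, F_b)` (`finProdFinEquiv`) says that the inner sum is `≥ 0`. -/
def TOpr : Prop := ∀ (n m : ℕ) (g : E n → Bl n) (Γ : E n → Bm n) (F : Fin n → E n → E n)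
  (G : E n → Fin n → Fin n → Fin n → ℝ), IsMet g → IsChr g Γ → Frm g Γ F G → ∀ x,
  (∀ (r : ℕ) (u v : Fin r → E n), 0 ≤ ∑ s, ∑ t, g x (Rm Γ x (u s) (v s) (v t)) (u t)) →
  ∀ t : Tn n (m + 1), Altn t → 0 ≤ Wz (Rc g Γ F x) t

end Helper62.DSH
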