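import Pool.Agent.Helper62.DSH.StA

/-!
# Project DSH, part C: differential forms of Mathlib and the Hodge star

Statements with complete proofs in the docstrings. A form `φ : E n → E n [⋀^Fin j]→L[ℝ] ℝ` has the components
`x, I ↦ φ x (F (I k) x)_k` in the frame `F`.
-/

set_option autoImplicit false

open Set Filter Topology MeasureTheory
open Helper62.LH
open scoped ContDiff ENNReal

noncomputable section

namespace Helper62.DSH

/-- components of an alternating form in the frame `F` -/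
def cp {n j : ℕ} (F : Fin n → E n → E n) (φ : E n → E n [⋀^Fin j]→L[ℝ] ℝ) (x : E n) : Tn n j :=
  fun I => φ x (fun k => F (I k) x)

/-- PLJ (180 lines). Poincare lemma.
PROOF. `η x = ∫ t in 0..1, t^j • (ω (t • x)).curryLeft x` (a Bochner integral in the finite dimensional space of alternating maps; or
build it from its values). Smoothness: differentiation under the integral, a general lemma `x ↦ ∫_0^1 H(x,t) dt` is `C^∞` for `H` of
class `C^∞` (see `Pool/Agent/Helper29/LH/M_PL.lean`, where the case `j = 1` is proved and the general lemma is available).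
`D_v η(x)(w) = ∫ (t^(j+1) D_vω(tx)(x,w) + t^j ω(tx)(v,w)) dt`. For `v : Fin (j+1) → E n` the sum `∑ c, (-1)^c` of the values at
`v = v c`, `w = v without c`: by `ContinuousAlternatingMap.map_insertNth` `(-1)^c ω(tx)(v c, v without c) = ω(tx)(v)`, and closedness for the
vectors `(x, v)` (`extDeriv_apply`, `Fin.sum_univ_succ`) says `∑ c, (-1)^c D_{v c}ω(tx)(x, v without c) = D_xω(tx)(v)`. So
`extDeriv η x v = ∫ ((j+1) t^j ω(tx)(v) + t^(j+1) D_xω(tx)(v)) dt = ∫ (d/dt)(t^(j+1) ω(tx)(v)) dt = ω x v`. -/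
def TPlj : Prop := ∀ (n j : ℕ) (P : E n → E n [⋀^Fin (j + 1)]→L[ℝ] ℝ), ContDiff ℝ ∞ P →
  (∀ x, extDeriv P x = 0) →
  ∃ η : E n → E n [⋀^Fin j]→L[ℝ] ℝ, ContDiff ℝ ∞ η ∧ ∀ x, extDeriv η x = P x

/-- BRC (150 lines). Components of a form and of its exterior derivative. Hypotheses: StChr.
PROOF. Smooth: evaluation is a continuous multilinear map. Alternating: `map_perm`. `fderiv (cp F φ) x (F_a) I = (D_aφ)(F_I) +
∑ k, φ x (F_I with F_{I k} replaced by DF_{I k}(F_a))` (product rule, e.g. `HasFDerivAt.continuousAlternatingMap_apply`-type lemma or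
`ContinuousMultilinearMap.hasFDerivAt`), and `rho (G x a) (cp F φ x) I = ∑ k, φ x (F_I with F_{I k} replaced by ∑ l, G a (I k) l F_l)`. By `cn` the
difference is `cv F G (cp F φ) x a I = (D_aφ)(F_I) - ∑ k, φ x (F_I with F_{I k} replaced by Γ x (F_a) (F_{I k}))`. Take the sum `∑ c, (-1)^c` with `a = J c`,
`I = J without c`. The first terms give `extDeriv φ x (F_J)` (`extDeriv_apply`). The second terms cancel because `Γ x` is symmetric: this is
`ContinuousAlternatingMap.alternatizeUncurryFin_fderivCompContinuousLinearMap_eq_zero` with `f = φ x`, `g = id`, `h = Γ x` (file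
`Mathlib/Analysis/Normed/Module/Alternating/Uncurry/Fin.lean`; `f.fderivCompContinuousLinearMap id h v = ∑ k, f (update v k (h (v k)))`). -/
def TBrc : Prop := ∀ (n j : ℕ) (g : E n → Bl n) (Γ : E n → Bm n) (F : Fin n → E n → E n)
  (G : E n → Fin n → Fin n → Fin n → ℝ), IsMet g → IsChr g Γ → Frm g Γ F G →
  ∀ φ : E n → E n [⋀^Fin j]→L[ℝ] ℝ, ContDiff ℝ ∞ φ →
    ContDiff ℝ ∞ (cp F φ) ∧ Al (cp F φ) ∧ ContDiff ℝ ∞ (fun x => extDeriv φ x) ∧
    ∀ x, dF F G (cp F φ) x = cp F (fun y => extDeriv φ y) x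

/-- FMK (150 lines). Every smooth alternating component family belongs to a smooth form. Hypotheses: TAlt.
PROOF. For `I : Fin j → Fin n` let `A_I` be a continuous alternating map with `A_I v = ∑ σ, sign σ ∏ k, (v (σ k)) (I k)` (alternatization of
the product of coordinates, `ContinuousMultilinearMap.mkPiAlgebra`, `compContinuousLinearMap`, `alternatization`; or a finite sum of
determinants). `F`-components in coordinates: `c_I x = ∑ I', (∏ k, g x (ee (I k)) (F (I' k) x)) * u x I'` (smooth), `φ x = (1/j!) ∑ I, c_I x • A_I`. For alternating `u x`,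
`c_I x` is alternating in `I`, so `φ x v = ∑ I, c_I x ∏ k, (v k) (I k)`, and with `∑ i, (F_a)_i g(ee i, F_b) = g(F_a,F_b) = δ_ab`:
`φ x (F_J) = ∑ I', u x I' ∏ k, δ (J k) (I' k) = u x J`. -/
def TFmk : Prop := ∀ (n j : ℕ) (g : E n → Bl n) (Γ : E n → Bm n) (F : Fin n → E n → E n)
  (G : E n → Fin n → Fin n → Fin n → ℝ), IsMet g → Frm g Γ F G →
  ∀ u : E n → Tn n j, ContDiff ℝ ∞ u → Al u →
  ∃ φ : E n → E n [⋀^Fin j]→L[ℝ] ℝ, ContDiff ℝ ∞ φ ∧ ∀ x, cp F φ x = u x

/-- DDZ (60 lines). `d ∘ d = 0`. Hypotheses: TBrc TFmk.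
PROOF. By FMK `β = cp F φ`; by BRC `dF β = cp F (extDeriv φ)` and `dF (dF β) = cp F (extDeriv (extDeriv φ)) = 0` (`extDeriv_extDeriv`). -/
def TDdz : Prop := ∀ (n j : ℕ) (g : E n → Bl n) (Γ : E n → Bm n) (F : Fin n → E n → E n)
  (G : E n → Fin n → Fin n → Fin n → ℝ), IsMet g → IsChr g Γ → Frm g Γ F G →
  ∀ β : E n → Tn n j, ContDiff ℝ ∞ β → Al β → ∀ x, dF F G (dF F G β) x = 0

/-- INV (100 lines). The determinant is invariant under skew derivations.
PROOF. `vdet (fun i => ee (L i))` is the determinant of a `0/1` matrix, it vanishes if `L` is not injective (two equal rows) and changes its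
sign under `L → L ∘ swap p q`. If `L` is a bijection, `Function.update L k l` is injective only for `l = L k`, so the sum is
`(∑ k, A (L k) (L k)) vdet (ee ∘ L) = 0` because `A a a = 0`. If `L p = L q`, `p ≠ q`: for `k ≠ p, q` the tuple `update L k l` still has two equal values, so
only `k = p, q` remain, and `update L q l = (update L p l) ∘ swap p q`, `A (L p) l = A (L q) l`: the two terms cancel for every `l`. -/
def TInv : Prop := ∀ (n : ℕ) (A : Fin n → Fin n → ℝ), (∀ a b, A a b = -A b a) →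
  ∀ L : Fin n → Fin n,
    ∑ k, ∑ l, A (L k) l * vdet (fun i => (ee (Function.update L k l i) : E n)) = 0

/-- STA (180 lines). Algebra of the star. Hypotheses: StEps StDtz TAlt.
PROOF. `h' : k + (l+1) = n`. Fix `L : Fin (l+1) → Fin n` and `I : Fin (k+1) → Fin n`; DTZ for the `n+1` vectors `ee (I 0), ..., ee (I k), ee (L 0), ..., ee (L l)`
and the covector `v ↦ ∑ a, p a I * v a`: `∑ s, (-1)^s p_{I s}(I) eps(I without s, L) + ∑ c, (-1)^(k+1+c) p_{L c}(I) eps(I, L without c) = 0`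
(first `eps` for `h'`, second for `h`). Sum over `I`: the second group is `(-1)^(k+1)` times the hypothesis, so zero; in the first group, by ALT (4)
`(-1)^s p_a(I) = p_a(I s, I without s)`, so for each of the `k+1` values of `s` the sum over `I` is `∑ K, D(K) eps(K, L)`, `D(K) = ∑ a, p_a(a,K)`. So
`∑ K, D(K) eps(K,L) = 0` for every `L`. `D` is alternating (so it vanishes on noninjective `K`). Multiply by `eps(K₀,L)`, sum over `L`: by EPS
`k! (l+1)! D(K₀) = 0`. -/
def TSta : Prop := ∀ (n k l : ℕ) (h : (k + 1) + l = n) (p : Fin n → Tn n (k + 1)),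
  (∀ a, Altn (p a)) →
  (∀ L : Fin (l + 1) → Fin n, ∑ c : Fin (l + 1), (-1) ^ (c : ℕ) *
    (∑ I : Fin (k + 1) → Fin n, p (L c) I * eps h I (fun i => L (c.succAbove i))) = 0) →
  ∀ K : Fin k → Fin n, ∑ a, p a (Fin.cons a K) = 0

/-- BRS (200 lines). `d ⋆ φ = 0` implies `δ φ = 0`. Hypotheses: StCfr StEpf TDer TInv TSta TBrc.
PROOF. `ω = cp F φ`, `T = cp F τ`. CFR (basis `F`) and EPF (2): `T x L = (vol vdet F / (k+1)!) ∑ I, ω x I eps h I L = (1/(k+1)!) ∑ I, ω x I eps h I L` by `Frm.ori`.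
For `A = G x a` (skew by `Frm.anti`): INV for the tuple `(I,L) : Fin n → Fin n` says `∑ k, ∑ b, A (I k) b eps(I[k→b],L) + ∑ k, ∑ b, A (L k) b eps(I,L[k→b]) = 0`;
multiply by `ω I` and sum over `I`; the first part is `- ∑ I, (ρ(A)ω)(I) eps(I,L)` (the substitution `(I,b) ↦ (I[k→b], I k)` and skewness), so
`ρ(A)(T x)(L) = (1/(k+1)!) ∑ I, (ρ(A)ω)(I) eps(I,L)`. So `cv F G T x a L = (1/(k+1)!) ∑ I, (cv F G ω x a)(I) eps h I L`. BRC for `τ` and `extDeriv τ = 0`:
`0 = dF F G T x L = (1/(k+1)!) ∑ c, (-1)^c ∑ I, (cv F G ω x (L c))(I) eps h I (L without c)`. STA with `p a = cv F G ω x a` (alternating, DER). The derivative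
of the constant function `f = 0` is zero. -/
def TBrs : Prop := ∀ (n k l : ℕ) (h : (k + 1) + l = n) (g : E n → Bl n) (Γ : E n → Bm n)
  (F : Fin n → E n → E n) (G : E n → Fin n → Fin n → Fin n → ℝ), IsMet g → IsChr g Γ →
  Frm g Γ F G → ∀ (φ : E n → E n [⋀^Fin (k + 1)]→L[ℝ] ℝ) (τ : E n → E n [⋀^Fin l]→L[ℝ] ℝ),
  ContDiff ℝ ∞ φ → ContDiff ℝ ∞ τ → IsStar h g φ τ → (∀ x, extDeriv τ x = 0) →
  ∀ x, dlF F G (fun _ => 0) (cp F φ) x = 0

end Helper62.DSH
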